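import Mathlib

/-!
# Powers of a prime number modulo powers of another one
-/

set_option autoImplicit false

namespace Pool.Agent.K1H37.MU

theorem pow_step {p : ℕ} (hp : p.Prime) {w : ℕ} (hw : 1 ≤ w) (h2 : p = 2 → 2 ≤ w) {u : ℤ}
    (hu : ¬ (p : ℤ) ∣ u) : ∃ u' : ℤ, ¬ (p : ℤ) ∣ u' ∧
      (1 + (p : ℤ) ^ w * u) ^ p = 1 + (p : ℤ) ^ (w + 1) * u' := by
  obtain ⟨y, hy⟩ := ZMod.exists_one_add_mul_pow_prime_eq hp (u := (p : ℤ) ^ w) (v := (p : ℤ))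
    (dvd_pow_self _ (by omega)) (by
      rw [← pow_succ', ← pow_succ, ← pow_mul]
      refine pow_dvd_pow _ ?_
      have h3 := hp.two_le
      rcases eq_or_ne p 2 with h | h
      · have := h2 h
        rw [h]
        omega
      · have h4 : 3 ≤ p := by omega
        nlinarith) u
  refine ⟨u + p * y, ?_, ?_⟩
  · intro h
    exact hu ((dvd_add_left (dvd_mul_right _ _)).1 h)
  · rw [hy, pow_succ]
    ring

theorem pow_iter {p : ℕ} (hp : p.Prime) {w : ℕ} (hw : 1 ≤ w) (h2 : p = 2 → 2 ≤ w) {u : ℤ}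
    (hu : ¬ (p : ℤ) ∣ u) (j : ℕ) : ∃ u' : ℤ, ¬ (p : ℤ) ∣ u' ∧
      (1 + (p : ℤ) ^ w * u) ^ (p ^ j) = 1 + (p : ℤ) ^ (w + j) * u' := by
  induction j with
  | zero => exact ⟨u, hu, by simp⟩
  | succ j ih =>
    obtain ⟨u', hu', h⟩ := ih
    obtain ⟨u'', hu'', h'⟩ := pow_step hp (w := w + j) (by omega) (fun h => by
      have := h2 h
      omega) hu'
    exact ⟨u'', hu'', by rw [pow_succ, pow_mul, h, h']; rfl⟩

theorem one_add_pow_mod {x : ℤ} (s : ℕ) : x ^ 2 ∣ (1 + x) ^ s - (1 + s * x) := by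
  induction s with
  | zero => simp
  | succ s ih =>
    obtain ⟨c, hc⟩ := ih
    refine ⟨c * (1 + x) + s, ?_⟩
    have h1 : (1 + x) ^ s = x ^ 2 * c + (1 + s * x) := by linarith
    rw [pow_succ, h1]
    push_cast
    ring

/-- every integer which is `1` modulo a suitable power of `p` is a power of `ℓ` modulo every power
of `p` -/
theorem exists_level {p ℓ : ℕ} (hp : p.Prime) (hℓ : ℓ.Prime) (hne : ℓ ≠ p) :
    ∃ N, ∀ (n : ℕ) (y : ℤ), (p : ℤ) ^ N ∣ y - 1 → ∃ k : ℕ, (p : ℤ) ^ n ∣ (ℓ : ℤ) ^ k - y := by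
  have hpZ : Prime (p : ℤ) := Nat.prime_iff_prime_int.1 hp
  have hcop : IsCoprime (ℓ : ℤ) (p : ℤ) := by
    rw [Nat.isCoprime_iff_coprime]
    exact (Nat.coprime_primes hℓ hp).2 hne
  set e := 2 * (p - 1) with he
  have he0 : e ≠ 0 := by
    have := hp.two_le
    omega
  have hp1 : (p : ℤ) ∣ (ℓ : ℤ) ^ (p - 1) - 1 :=
    (Int.ModEq.pow_card_sub_one_eq_one hp hcop).symm.dvd
  have hp2 : (p : ℤ) ∣ (ℓ : ℤ) ^ e - 1 := by
    have h1 : (ℓ : ℤ) ^ (p - 1) - 1 ∣ (ℓ : ℤ) ^ e - 1 := by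
      rw [he, mul_comm, pow_mul]
      exact sub_one_dvd_pow_sub_one _ _
    exact hp1.trans h1
  have h4 : p = 2 → (p : ℤ) ^ 2 ∣ (ℓ : ℤ) ^ e - 1 := by
    rintro rfl
    have h5 : (ℓ : ℤ) ^ e - 1 = ((ℓ : ℤ) - 1) * ((ℓ : ℤ) + 1) := by
      rw [he]
      ring
    have hodd : ℓ % 2 = 1 := hℓ.eq_two_or_odd.resolve_left hne
    have h6 : ((2 : ℕ) : ℤ) ∣ (ℓ : ℤ) - 1 := by omega
    have h7 : ((2 : ℕ) : ℤ) ∣ (ℓ : ℤ) + 1 := by omega
    rw [h5, pow_two]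
    exact mul_dvd_mul h6 h7
  have hne0 : (ℓ : ℤ) ^ e - 1 ≠ 0 := by
    have h5 : 1 < ℓ ^ e := Nat.one_lt_pow he0 hℓ.one_lt
    have h6 : (1 : ℤ) < (ℓ : ℤ) ^ e := by exact_mod_cast h5
    omega
  have hfin : FiniteMultiplicity (p : ℤ) ((ℓ : ℤ) ^ e - 1) := by
    rw [Int.finiteMultiplicity_iff]
    exact ⟨by rw [Int.natAbs_natCast]; exact hp.ne_one, hne0⟩
  obtain ⟨u, hu1, hu2⟩ := hfin.exists_eq_pow_mul_and_not_dvd
  set v := multiplicity (p : ℤ) ((ℓ : ℤ) ^ e - 1) with hv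
  have hv1 : 1 ≤ v := by
    have := hfin.le_multiplicity_of_pow_dvd (k := 1) (by rwa [pow_one])
    exact this
  have hv2 : p = 2 → 2 ≤ v := fun h => hfin.le_multiplicity_of_pow_dvd (h4 h)
  have ha : (ℓ : ℤ) ^ e = 1 + (p : ℤ) ^ v * u := by linarith
  refine ⟨v, fun n y hy => ?_⟩
  -- induction
  have key : ∀ i, ∃ k : ℕ, (p : ℤ) ^ (v + i) ∣ (ℓ : ℤ) ^ k - y := by
    intro i
    induction i with
    | zero =>
      refine ⟨0, ?_⟩
      rw [pow_zero, add_zero]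
      exact (dvd_sub_comm).1 hy
    | succ i ih =>
      obtain ⟨k, c, hc⟩ := ih
      obtain ⟨u', hu', h5⟩ := pow_iter hp hv1 hv2 hu2 i
      rw [← ha, ← pow_mul] at h5
      have h6 : ¬ (p : ℤ) ∣ u' * (ℓ : ℤ) ^ k := by
        intro h
        rcases hpZ.dvd_or_dvd h with h | h
        · exact hu' h
        · have h7 := hpZ.dvd_of_dvd_pow h
          exact hne ((Nat.prime_dvd_prime_iff_eq hp hℓ).1 (by exact_mod_cast h7)).symm
      have h7 : IsCoprime (p : ℤ) (u' * (ℓ : ℤ) ^ k) := (hpZ.coprime_iff_not_dvd).2 h6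
      obtain ⟨a, b, hab⟩ := h7
      -- `s` natural, `s ≡ -c b`
      have hs : ∃ s : ℕ, (p : ℤ) ∣ (s : ℤ) + c * b := by
        refine ⟨((-(c * b)) % (p : ℤ)).toNat, ?_⟩
        have h8 : 0 ≤ (-(c * b)) % (p : ℤ) := Int.emod_nonneg _ hpZ.ne_zero
        rw [Int.toNat_of_nonneg h8]
        have h9 := Int.emod_add_mul_ediv (-(c * b)) (p : ℤ)
        exact ⟨-(-(c * b) / (p : ℤ)), by linarith⟩
      obtain ⟨s, t, hst⟩ := hs
      refine ⟨k + e * p ^ i * s, ?_⟩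
      obtain ⟨d, hd⟩ := one_add_pow_mod (x := (p : ℤ) ^ (v + i) * u') s
      have h8 : (ℓ : ℤ) ^ (k + e * p ^ i * s) - y =
          (p : ℤ) ^ (v + i) * (c + s * (u' * (ℓ : ℤ) ^ k)) +
          ((p : ℤ) ^ (v + i) * u') ^ 2 * d * (ℓ : ℤ) ^ k := by
        rw [pow_add, pow_mul _ (e * p ^ i) s, h5]
        have h9 : (ℓ : ℤ) ^ k = y + (p : ℤ) ^ (v + i) * c := by linarith
        have h10 : (1 + (p : ℤ) ^ (v + i) * u') ^ s =
            ((p : ℤ) ^ (v + i) * u') ^ 2 * d + (1 + s * ((p : ℤ) ^ (v + i) * u')) := by linarith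
        rw [h10]
        linear_combination h9
      rw [h8, ← add_assoc, pow_succ]
      refine dvd_add (mul_dvd_mul_left _ ?_) ?_
      · refine ⟨t * (u' * (ℓ : ℤ) ^ k) + c * a, ?_⟩
        linear_combination (u' * (ℓ : ℤ) ^ k) * hst - c * hab
      · have h9 : (p : ℤ) ^ (v + i) * (p : ℤ) ∣ ((p : ℤ) ^ (v + i)) ^ 2 := by
          rw [pow_two]
          exact mul_dvd_mul_left _ (dvd_pow_self _ (by omega))
        rw [mul_pow, mul_assoc, mul_assoc]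
        exact h9.mul_right _
  obtain ⟨k, hk⟩ := key n
  exact ⟨k, (pow_dvd_pow _ (Nat.le_add_left n v)).trans hk⟩

end Pool.Agent.K1H37.MU
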