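import Pool.Agent.K1H37.MU.Rat

/-!
# The cyclotomic `ℤ_p`-extension of the rational numbers, complex conjugations
-/

set_option autoImplicit false

namespace Pool.Agent.K1H37.MU

open NumberField IntermediateField Pool.Agent.Q60.MU Subgroup
open scoped Pointwise commutatorElement

/-- `E` is totally real: all embeddings of the field of algebraic numbers in `ℂ` map `E` to `ℝ`. -/
def TotReal (E : IntermediateField ℚ Qb) : Prop :=
  ∀ φ : Qb →+* ℂ, ∀ x ∈ E, starRingEnd ℂ (φ x) = φ x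

/-- `σ` is the complex conjugation for the embedding `φ`. -/
def IsConj (φ : Qb →+* ℂ) (σ : GQ) : Prop := ∀ x, φ (σ x) = starRingEnd ℂ (φ x)

theorem exists_conj (φ : Qb →+* ℂ) : ∃ σ : GQ, IsConj φ σ := by
  let _ : Algebra Qb ℂ := φ.toAlgebra
  have hst : IsScalarTower ℚ Qb ℂ := IsScalarTower.of_algebraMap_eq' (Subsingleton.elim _ _)
  let ψ : Qb →ₐ[ℚ] ℂ :=
    { toRingHom := (starRingEnd ℂ).comp φ
      commutes' := fun r => by
        have h1 := (((starRingEnd ℂ).comp φ).comp (algebraMap ℚ Qb))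
        have h2 : ((starRingEnd ℂ).comp φ).comp (algebraMap ℚ Qb) = algebraMap ℚ ℂ :=
          Subsingleton.elim _ _
        exact DFunLike.congr_fun h2 r }
  let χ : Qb →ₐ[ℚ] Qb := ψ.restrictNormal Qb
  have hχ : ∀ x, φ (χ x) = starRingEnd ℂ (φ x) := fun x => ψ.restrictNormal_commutes Qb x
  refine ⟨AlgEquiv.ofBijective χ (Algebra.IsAlgebraic.algHom_bijective χ), fun x => hχ x⟩

theorem IsConj.sq {φ : Qb →+* ℂ} {σ : GQ} (h : IsConj φ σ) : σ ^ 2 = 1 := by
  apply AlgEquiv.ext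
  intro x
  apply φ.injective
  rw [pow_two, AlgEquiv.mul_apply, h, h, AlgEquiv.one_apply]
  exact Complex.conj_conj _

theorem IsConj.conj {φ : Qb →+* ℂ} {σ : GQ} (h : IsConj φ σ) (g : GQ) :
    IsConj (φ.comp ((g⁻¹ : GQ) : Qb →+* Qb)) (g * σ * g⁻¹) := by
  intro x
  show φ (g⁻¹ ((g * σ * g⁻¹) x)) = starRingEnd ℂ (φ (g⁻¹ x))
  rw [← h]
  congr 1
  rw [← AlgEquiv.mul_apply, ← AlgEquiv.mul_apply]
  congr 1
  group

/-- a field is totally real iff it is fixed by all the complex conjugations -/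
theorem totReal_iff {E : IntermediateField ℚ Qb} :
    TotReal E ↔ ∀ φ σ, IsConj φ σ → σ ∈ E.fixingSubgroup := by
  constructor
  · intro h φ σ hσ
    rw [IntermediateField.mem_fixingSubgroup_iff]
    intro x hx
    apply φ.injective
    rw [hσ, h φ x hx]
  · intro h φ x hx
    obtain ⟨σ, hσ⟩ := exists_conj φ
    rw [← hσ, (IntermediateField.mem_fixingSubgroup_iff _ _).1 (h φ σ hσ) x hx]

/-- The cyclotomic `ℤ_p`-extension of `ℚ`: the compositum of the totally real fields of `p`-power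
degree in the field generated by the roots of unity of `p`-power order. -/
noncomputable def Qcyc (p : ℕ) : IntermediateField ℚ Qb :=
  sSup {E | E ≤ adjoin ℚ {z : Qb | ∃ n : ℕ, z ^ (p ^ n) = 1} ∧
    (∃ m : ℕ, Module.finrank ℚ E = p ^ m) ∧ TotReal E}

theorem Qcyc_le (p : ℕ) : Qcyc p ≤ Kinf p := sSup_le fun _ hE => hE.1

theorem Qcyc_pro {p : ℕ} (hp : p.Prime) (σ : GQ) {x : Qb} (hx : x ∈ Qcyc p) :
    ∃ n : ℕ, ∀ k, n ≤ k → (σ ^ (p ^ k)) x = x :=
  pro_p hp _ rfl (fun _ hE => ⟨hE.1, hE.2.1⟩) σ hx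

theorem mu_Q' {c : Loc} (hc : c ≠ Loc.free) {p : ℕ} (hp : p.Prime) : Mu c p (Qcyc p) ⊥ :=
  mu_Q hc hp (Qcyc_le p) fun σ _ hx => Qcyc_pro hp σ hx

end Pool.Agent.K1H37.MU
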