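import Pool.Agent.K1H37.MU.Trans

/-!
# Detection of the vanishing of `μ` by vectors in simple modules
-/

set_option autoImplicit false

namespace Pool.Agent.K1H37.MU

open NumberField IntermediateField Pool.Agent.Q60.MU Subgroup
open scoped Pointwise commutatorElement

theorem finite_of_le {E N : IntermediateField ℚ Qb} (h : E ≤ N) (hN : FiniteDimensional ℚ N) :
    FiniteDimensional ℚ E :=
  Submodule.finiteDimensional_of_le (S₁ := Subalgebra.toSubmodule E.toSubalgebra)
    (S₂ := Subalgebra.toSubmodule N.toSubalgebra) h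

/-- **Subfields.** -/
theorem Mu.of_le {c : Loc} {p : ℕ} {R E F : IntermediateField ℚ Qb} (hEF : E ≤ F)
    (hF : FiniteDimensional ℚ F) (h : Mu c p R F) : Mu c p R E := by
  have hE := finite_of_le hEF hF
  rw [← mu_iff' c p le_rfl hE]
  rw [← mu_iff' c p hEF hF] at h
  refine h.of_le (comap_mono (fixingSubgroup_le hEF)) (isOpen_subgroupOf F.fixingSubgroup_isOpen) ?_
  apply relIndex_subgroupOf_ne_zero
  have h1 := relIndex_mul_index (fixingSubgroup_le hEF)
  intro h0
  rw [h0, zero_mul] at h1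
  exact index_ne_zero' F h1.symm

/-- **Detection.** -/
theorem detect (c : Loc) (p : ℕ) [Fact p.Prime] {R : IntermediateField ℚ Qb} (hR : R ≤ Kinf p)
    (hRn : R.fixingSubgroup.Normal) {k N : IntermediateField ℚ Qb} (hkN : k ≤ N)
    (hN : FiniteDimensional ℚ N) (hNk : ∀ σ ∈ k.fixingSubgroup, ∀ x ∈ N, σ x ∈ N)
    (hvec : ∀ (S : Type) [AddCommGroup S] [Module (ZMod p) S] [Module.Finite (ZMod p) S]
      (τ : Representation (ZMod p) k.fixingSubgroup S),
      (∀ g : k.fixingSubgroup, (g : GQ) ∈ N.fixingSubgroup → ∀ x, τ g x = x) → IsSimple τ →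
      ∃ E, k ≤ E ∧ E ≤ N ∧ Mu c p R E ∧ ∃ v : S, v ≠ 0 ∧
        ∀ g : k.fixingSubgroup, (g : GQ) ∈ E.fixingSubgroup → τ g v = v) :
    Mu c p R N := by
  classical
  have hp : p.Prime := Fact.out
  rw [← mu_iff' c p hkN hN]
  have hDn : (R.fixingSubgroup.subgroupOf k.fixingSubgroup).Normal := hRn.subgroupOf _
  have hKn : (N.fixingSubgroup.subgroupOf k.fixingSubgroup).Normal := by
    refine ⟨fun n hn g => ?_⟩
    rw [mem_subgroupOf] at hn ⊢
    rw [IntermediateField.mem_fixingSubgroup_iff] at hn ⊢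
    intro x hx
    have h1 : ((g⁻¹ : k.fixingSubgroup) : GQ) x ∈ N := hNk _ (g⁻¹).2 x hx
    have h2 := hn _ h1
    show (g : GQ) ((n : GQ) (((g⁻¹ : k.fixingSubgroup) : GQ) x)) = x
    rw [h2]
    show ((g : GQ) * (g : GQ)⁻¹) x = x
    rw [mul_inv_cancel]
    rfl
  have hNi : N.fixingSubgroup.index ≠ 0 := index_ne_zero' N
  have hKf : (N.fixingSubgroup.subgroupOf k.fixingSubgroup).index ≠ 0 := by
    intro h
    have h1 : N.fixingSubgroup.relIndex k.fixingSubgroup = 0 := h
    have h2 := relIndex_mul_index (fixingSubgroup_le hkN)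
    rw [h1, zero_mul] at h2
    exact hNi h2.symm
  have hki : k.fixingSubgroup.index ≠ 0 := by
    have h2 := relIndex_mul_index (fixingSubgroup_le hkN)
    intro h
    rw [h, mul_zero] at h2
    exact hNi h2.symm
  obtain ⟨T, hT⟩ := fam_finite c hp (D := R.fixingSubgroup) (fixingSubgroup_le hR)
    N.fixingSubgroup_isOpen hNi
  obtain ⟨T', _, hT'⟩ := exists_TL (D := R.fixingSubgroup)
    (L := k.fixingSubgroup ⊓ R.fixingSubgroup) (by
      rw [inf_relIndex_right]
      intro h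
      have h1 := index_eq_zero_of_relIndex_eq_zero h
      exact hki h1) T
  refine reduction_inf (𝔾 := k.fixingSubgroup) (Ω := Ideal OQ) (p := p)
    (I := fun w => (fam c p w).subgroupOf k.fixingSubgroup)
    (fun g w x hx => fam_conj c p g w x hx) hDn hKn hKf T' ?_ ?_
  · intro w
    rcases hT w with h | ⟨u, hu, d, hd, hw⟩
    · exact Or.inl fun x hx => h ⟨hx.1, hx.2⟩
    · right
      obtain ⟨u', hu', l, hl, hdl⟩ := hT' u hu d hd
      refine ⟨u', hu', ⟨l, hl.1⟩, hl.2, ?_⟩
      rw [hw, hdl]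
      rfl
  · intro S _ _ _ τ hτ hs
    obtain ⟨E, hkE, hEN, hmu, v, hv, hfix⟩ := hvec S τ (fun g hg => hτ g hg) hs
    have hE := finite_of_le hEN hN
    exact ⟨E.fixingSubgroup.subgroupOf k.fixingSubgroup,
      ⟨comap_mono (fixingSubgroup_le hEN), (mu_iff' c p hkE hE).2 hmu⟩, v, hv,
      fun g hg => hfix g hg⟩

theorem roots_comm {p n : ℕ} (hp : p.Prime) (σ τ : GQ) {z : Qb} (hz : z ^ (p ^ n) = 1) :
    σ (τ z) = τ (σ z) := by
  have hne : NeZero (p ^ n) := ⟨pow_ne_zero _ hp.ne_zero⟩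
  obtain ⟨ζ, hζ⟩ := exists_prim p n hp
  have key : ∀ ρ : GQ, ∃ a : ℕ, ρ ζ = ζ ^ a := by
    intro ρ
    have h1 : (ρ ζ) ^ (p ^ n) = 1 := by rw [← map_pow, hζ.pow_eq_one, map_one]
    obtain ⟨a, _, ha⟩ := hζ.eq_pow_of_pow_eq_one h1
    exact ⟨a, ha.symm⟩
  obtain ⟨i, _, rfl⟩ := hζ.eq_pow_of_pow_eq_one hz
  obtain ⟨a, ha⟩ := key σ
  obtain ⟨b, hb⟩ := key τ
  have h1 : σ (τ (ζ ^ i)) = ζ ^ (a * b * i) := by
    rw [map_pow, hb, map_pow, map_pow, ha]
    ring
  have h2 : τ (σ (ζ ^ i)) = ζ ^ (a * b * i) := by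
    rw [map_pow, ha, map_pow, map_pow, hb]
    ring
  rw [h1, h2]

/-- subfields of the field of the roots of unity are normal -/
theorem normal_of_le {p : ℕ} (hp : p.Prime) {R : IntermediateField ℚ Qb} (hR : R ≤ Kinf p) :
    R.fixingSubgroup.Normal := by
  refine ⟨fun d hd g => ?_⟩
  have h1 : ⁅g, d⁆ ∈ (Kinf p).fixingSubgroup := by
    rw [IntermediateField.mem_fixingSubgroup_iff]
    intro x hx
    obtain ⟨n, hn⟩ := exists_Klev hx
    have h2 := agree (p := p) (n := n) (σ := g * d) (τ := d * g)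
      (fun z hz => roots_comm hp g d hz) (x := (d * g)⁻¹ x) (Klev_stable _ hn)
    have h3 : ⁅g, d⁆ x = (g * d) ((d * g)⁻¹ x) := by
      have h4 : ⁅g, d⁆ = (g * d) * (d * g)⁻¹ := by
        rw [commutatorElement_def, mul_inv_rev]
        group
      rw [h4]
      rfl
    rw [h3, h2, ← AlgEquiv.mul_apply, mul_inv_cancel, AlgEquiv.one_apply]
  have h2 : g * d * g⁻¹ = ⁅g, d⁆ * d := by
    rw [commutatorElement_def]
    group
  rw [h2]
  exact R.fixingSubgroup.mul_mem (fixingSubgroup_le hR h1) hd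

/-- **Vector fields**: general form, with a class of number fields closed under Galois closures. -/
theorem vector_fields (c : Loc) (p : ℕ) [Fact p.Prime] {R : IntermediateField ℚ Qb}
    (hR : R ≤ Kinf p) {F : IntermediateField ℚ Qb} (hF : FiniteDimensional ℚ F)
    (hvec : ∀ (S : Type) [AddCommGroup S] [Module (ZMod p) S] [Module.Finite (ZMod p) S]
      (τ : Representation (ZMod p) GQ S),
      (∀ g ∈ F.fixingSubgroup.normalCore, ∀ x, τ g x = x) → IsSimple τ →
      ∃ v : S, v ≠ 0 ∧ Mu c p R (fixedField (stab τ v))) :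
    Mu c p R F := by
  classical
  have hUf : F.fixingSubgroup.FiniteIndex := ⟨index_ne_zero' F⟩
  set K := F.fixingSubgroup.normalCore with hKdef
  have hKn : K.Normal := normalCore_normal _
  have hKo : IsOpen (K : Set Gal(Qb/ℚ)) :=
    isOpen_normalCore F.fixingSubgroup_isOpen (index_ne_zero' F)
  have hKf : K.index ≠ 0 := by
    have : K.FiniteIndex := F.fixingSubgroup.finiteIndex_normalCore
    exact FiniteIndex.index_ne_zero
  have hfix := fix_fixed hKo
  have hNd := finite_fixed hKo hKf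
  have hFN : F ≤ fixedField K := (le_iff_le _ _).2 (normalCore_le _)
  refine Mu.of_le hFN hNd ?_
  have hbot : ∀ g : GQ, g ∈ (⊥ : IntermediateField ℚ Qb).fixingSubgroup := by
    intro g
    rw [fixingSubgroup_bot]
    exact mem_top g
  refine detect c p hR (normal_of_le Fact.out hR) (k := ⊥) bot_le hNd ?_ ?_
  · intro σ _ x hx
    rw [mem_fixedField_iff] at hx ⊢
    intro g hg
    have h1 := hx _ (hKn.conj_mem g hg σ⁻¹)
    have h2 : g (σ x) = σ ((σ⁻¹ * g * σ⁻¹⁻¹) x) := by
      rw [← AlgEquiv.mul_apply, ← AlgEquiv.mul_apply]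
      congr 1
      group
    rw [h2, h1]
  · intro S _ _ _ τ hτ hs
    let ι : GQ →* (⊥ : IntermediateField ℚ Qb).fixingSubgroup :=
      { toFun := fun g => ⟨g, hbot g⟩
        map_one' := rfl
        map_mul' := fun _ _ => rfl }
    let τ' : Representation (ZMod p) GQ S := τ.comp ι
    have hτ' : ∀ g ∈ K, ∀ x, τ' g x = x := by
      intro g hg x
      refine hτ (ι g) ?_ x
      rw [hfix]
      exact hg
    have hs' : IsSimple τ' := by
      refine ⟨hs.1, fun U hU => hs.2 U fun g x hx => ?_⟩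
      exact hU g x hx
    obtain ⟨v, hv, hmu⟩ := hvec S τ' hτ' hs'
    have hle : K ≤ stab τ' v := fun g hg => hτ' g hg v
    have hso : IsOpen (stab τ' v : Set Gal(Qb/ℚ)) := Subgroup.isOpen_mono hle hKo
    refine ⟨fixedField (stab τ' v), bot_le, fixedField_antitone hle, hmu, v, hv, ?_⟩
    intro g hg
    rw [fix_fixed hso] at hg
    exact hg

end Pool.Agent.K1H37.MU
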