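import Pool.Agent.K1H37.MU.Prim

/-!
# Inertia and decomposition groups at the maximal ideals of the ring of all algebraic integers
-/

set_option autoImplicit false

namespace Pool.Agent.K1H37.MU

open NumberField IntermediateField Pool.Agent.Q60.MU Polynomial
open scoped Pointwise

/-- The condition at the primes above `p`. -/
inductive Loc
  /-- unramified -/
  | unr
  /-- completely split -/
  | split
  /-- no condition -/
  | free
  deriving DecidableEq

/-- The group which has to act trivially: the inertia group if `p ∉ P`; if `p ∈ P`, the inertia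
group, the decomposition group or the trivial group. -/
noncomputable def fam (c : Loc) (p : ℕ) (P : Ideal OQ) : Subgroup GQ :=
  open Classical in
  if P.IsMaximal then
    (if (p : OQ) ∈ P then
      (match c with
        | Loc.unr => P.inertia GQ
        | Loc.split => MulAction.stabilizer GQ P
        | Loc.free => ⊥)
      else P.inertia GQ)
    else ⊥

theorem fam_not {c : Loc} {p : ℕ} {P : Ideal OQ} (h : ¬ P.IsMaximal) : fam c p P = ⊥ := by
  classical
  unfold fam
  rw [if_neg h]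

theorem fam_away {c : Loc} {p : ℕ} {P : Ideal OQ} (h : P.IsMaximal) (hp : (p : OQ) ∉ P) :
    fam c p P = P.inertia GQ := by
  classical
  unfold fam
  rw [if_pos h, if_neg hp]

theorem mem_inertia' {P : Ideal OQ} {σ : GQ} : σ ∈ P.inertia GQ ↔ ∀ x : OQ, σ • x - x ∈ P :=
  Iff.rfl

theorem smul_max {P : Ideal OQ} (g : GQ) : (g • P).IsMaximal ↔ P.IsMaximal := by
  have key : ∀ (h : GQ) (Q : Ideal OQ), Q.IsMaximal → (h • Q).IsMaximal := by
    intro h Q hQ
    refine Ideal.isMaximal_def.2 ⟨?_, ?_⟩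
    · intro h1
      apply hQ.ne_top
      rw [Ideal.eq_top_iff_one] at h1 ⊢
      rw [Ideal.mem_pointwise_smul_iff_inv_smul_mem, smul_one] at h1
      exact h1
    · intro J hJ
      have h1 : Q < h⁻¹ • J := by
        rw [lt_iff_le_and_ne] at hJ ⊢
        refine ⟨?_, fun h2 => hJ.2 ?_⟩
        · intro x hx
          rw [Ideal.mem_pointwise_smul_iff_inv_smul_mem, inv_inv]
          apply hJ.1
          rw [Ideal.mem_pointwise_smul_iff_inv_smul_mem, inv_smul_smul]
          exact hx
        · rw [h2, smul_inv_smul]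
      have h2 := (Ideal.isMaximal_def.1 hQ).2 _ h1
      rw [Ideal.eq_top_iff_one] at h2 ⊢
      rw [Ideal.mem_pointwise_smul_iff_inv_smul_mem, smul_one] at h2
      exact h2
  refine ⟨fun h => ?_, key g P⟩
  have := key g⁻¹ _ h
  rwa [inv_smul_smul] at this

theorem smul_natCast (g : GQ) (n : ℕ) : g • (n : OQ) = n := by
  apply RingOfIntegers.ext
  rw [coe_smul']
  simp

theorem natCast_mem_smul {P : Ideal OQ} (g : GQ) (n : ℕ) : (n : OQ) ∈ g • P ↔ (n : OQ) ∈ P := by
  rw [Ideal.mem_pointwise_smul_iff_inv_smul_mem, smul_natCast]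

theorem fam_conj (c : Loc) (p : ℕ) (g : GQ) (P : Ideal OQ) :
    ∀ x ∈ fam c p P, g * x * g⁻¹ ∈ fam c p (g • P) := by
  classical
  intro x hx
  have hin : x ∈ P.inertia GQ → g * x * g⁻¹ ∈ (g • P).inertia GQ := by
    intro h
    rw [mem_inertia'] at h ⊢
    intro y
    have h1 := h (g⁻¹ • y)
    rw [Ideal.mem_pointwise_smul_iff_inv_smul_mem, smul_sub]
    have h2 : g⁻¹ • (g * x * g⁻¹) • y = x • (g⁻¹ • y) := by
      rw [mul_smul, mul_smul, inv_smul_smul]
    rw [h2]
    exact h1
  by_cases hm : P.IsMaximal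
  · by_cases hp : (p : OQ) ∈ P
    · unfold fam at hx ⊢
      rw [if_pos hm, if_pos hp] at hx
      rw [if_pos ((smul_max g).2 hm), if_pos ((natCast_mem_smul g p).2 hp)]
      cases c with
      | unr => exact hin hx
      | split =>
        have h1 : x • P = P := hx
        show (g * x * g⁻¹) • g • P = g • P
        rw [mul_smul, mul_smul, inv_smul_smul, h1]
      | free =>
        have h1 : x = 1 := hx
        rw [h1, mul_one, mul_inv_cancel]
        exact Subgroup.one_mem _
    · rw [fam_away hm hp] at hx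
      rw [fam_away ((smul_max g).2 hm) (fun h => hp ((natCast_mem_smul g p).1 h))]
      exact hin hx
  · rw [fam_not hm] at hx
    have h1 : x = 1 := hx
    rw [h1, mul_one, mul_inv_cancel]
    exact Subgroup.one_mem _

/-- **Only finitely many primes ramify.** -/
theorem exists_bad' (N : IntermediateField ℚ Qb) [FiniteDimensional ℚ N] :
    ∃ c : ℕ, c ≠ 0 ∧ ∀ P : Ideal OQ, P.IsPrime → ∀ σ ∈ P.inertia GQ, σ ∉ N.fixingSubgroup →
      (c : OQ) ∈ P := by
  have halg : ∀ x : Qb, IsAlgebraic ℤ x := fun x =>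
    (IsFractionRing.isAlgebraic_iff ℤ ℚ Qb).2 ((AlgebraicClosure.isAlgebraic ℚ).isAlgebraic x)
  obtain ⟨α, hα⟩ := Field.exists_primitive_element ℚ N
  obtain ⟨y, hy0, hyi⟩ := (halg (α : Qb)).exists_integral_multiple
  obtain ⟨β, hβ⟩ : ∃ β : OQ, (β : Qb) = y • (α : Qb) := ⟨⟨_, hyi⟩, rfl⟩
  have hσ : ∀ σ : GQ, σ (β : Qb) = β → σ ∈ N.fixingSubgroup := by
    intro σ h
    have h1 : σ (α : Qb) = α := by
      rw [hβ, map_zsmul] at h
      exact smul_right_injective _ hy0 h
    rw [IntermediateField.mem_fixingSubgroup_iff]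
    intro x hx
    have h2 : (⟨x, hx⟩ : N) ∈ IntermediateField.adjoin ℚ {α} := by
      rw [hα]
      exact IntermediateField.mem_top
    obtain ⟨r, s, hrs⟩ := (IntermediateField.mem_adjoin_simple_iff ℚ _).1 h2
    have h3 : x = aeval (α : Qb) r / aeval (α : Qb) s := by
      have h4 := congrArg N.val hrs
      rw [map_div₀, ← aeval_algHom_apply, ← aeval_algHom_apply] at h4
      exact h4
    have h4 : ∀ q : ℚ[X], σ (aeval (α : Qb) q) = aeval (α : Qb) q := by
      intro q
      have h5 := aeval_algHom_apply (σ : Qb →ₐ[ℚ] Qb) (α : Qb) q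
      have h6 : (σ : Qb →ₐ[ℚ] Qb) (α : Qb) = α := h1
      rw [h6] at h5
      exact h5.symm
    rw [h3, map_div₀, h4, h4]
  have hyi' : IsIntegral ℤ (β : Qb) := β.2
  set p := minpoly ℤ (β : Qb) with hPdef
  have hP : p.map (algebraMap ℤ ℚ) = minpoly ℚ (β : Qb) :=
    (minpoly.isIntegrallyClosed_eq_field_fractions' ℚ hyi').symm
  have hcoe : ∀ (q : ℤ[X]) (x : OQ), ((aeval x q : OQ) : Qb) = aeval (x : Qb) q := by
    intro q x
    rw [RingOfIntegers.coe_eq_algebraMap, RingOfIntegers.coe_eq_algebraMap,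
      aeval_algebraMap_apply]
  set D : OQ := aeval β (derivative p) with hD
  have hD0 : (D : Qb) ≠ 0 := by
    have h1 : (D : Qb) = aeval (β : Qb) (derivative (minpoly ℚ (β : Qb))) := by
      rw [← hP, derivative_map, aeval_map_algebraMap, hD, hcoe]
    rw [h1]
    have h2 : IsIntegral ℚ (β : Qb) := hyi'.tower_top
    exact (minpoly.irreducible h2).separable.aeval_derivative_ne_zero (minpoly.aeval _ _)
  obtain ⟨c, hc0, hci⟩ := (halg (D : Qb)⁻¹).exists_integral_multiple
  obtain ⟨E, hE⟩ : ∃ E : OQ, (E : Qb) = c • (D : Qb)⁻¹ := ⟨⟨_, hci⟩, rfl⟩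
  refine ⟨c.natAbs, Int.natAbs_ne_zero.2 hc0, fun P hPp σ hσA hσN => ?_⟩
  have hh : σ • β - β ∈ P := hσA β
  have hh0 : σ • β - β ≠ 0 := by
    intro h
    apply hσN
    apply hσ
    have h1 := congrArg (fun z : OQ => (z : Qb)) (sub_eq_zero.1 h)
    exact h1
  have hDA : D ∈ P := by
    obtain ⟨k, hk⟩ := binomExpansion (p.map (Int.castRingHom OQ)) β (σ • β - β)
    have hev : ∀ (q : ℤ[X]) (x : OQ), (q.map (Int.castRingHom OQ)).eval x = aeval x q := by
      intro q x
      rw [eval_map, aeval_def]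
      rfl
    have h1 : aeval β p = 0 := by
      apply RingOfIntegers.ext
      rw [hcoe, hPdef, minpoly.aeval]
      rfl
    have h2 : aeval (β + (σ • β - β)) p = 0 := by
      rw [add_sub_cancel]
      apply RingOfIntegers.ext
      rw [hcoe, coe_smul']
      have h3 := aeval_algHom_apply ((σ : Qb →ₐ[ℚ] Qb).restrictScalars ℤ) (β : Qb) p
      have h4 : aeval (β : Qb) p = 0 := minpoly.aeval ℤ (β : Qb)
      rw [h4, map_zero] at h3
      exact h3
    rw [hev, hev, derivative_map, hev, h1, h2, zero_add] at hk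
    have h5 : D = (σ • β - β) * (-k) := by
      have h6 : (σ • β - β) * (D + k * (σ • β - β)) = 0 := by
        rw [hD]
        linear_combination -hk
      have h7 := (mul_eq_zero.1 h6).resolve_left hh0
      linear_combination h7
    rw [h5]
    exact P.mul_mem_right _ hh
  have hcA : (c : OQ) ∈ P := by
    have h1 : (c : OQ) = D * E := by
      apply RingOfIntegers.ext
      rw [RingOfIntegers.coe_eq_algebraMap, RingOfIntegers.coe_eq_algebraMap, map_mul, map_intCast,
        ← RingOfIntegers.coe_eq_algebraMap, ← RingOfIntegers.coe_eq_algebraMap, hE, zsmul_eq_mul]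
      field_simp
    rw [h1]
    exact P.mul_mem_right _ hDA
  rcases Int.natAbs_eq c with h | h
  · have h2 := congrArg (Int.cast : ℤ → OQ) h
    rw [Int.cast_natCast] at h2
    rw [← h2]
    exact hcA
  · have h2 := congrArg (Int.cast : ℤ → OQ) h
    rw [Int.cast_neg, Int.cast_natCast] at h2
    have h3 : ((c.natAbs : ℕ) : OQ) = -(c : OQ) := by
      rw [h2, neg_neg]
    rw [h3]
    exact P.neg_mem hcA

theorem exists_prime' {P : Ideal OQ} (hP : P.IsPrime) {c : ℕ} (hc : c ≠ 0) (h : (c : OQ) ∈ P) :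
    ∃ ℓ ∈ c.primeFactors, (ℓ : OQ) ∈ P := by
  have h1 : ((c.primeFactorsList.prod : ℕ) : OQ) ∈ P := by
    rw [Nat.prod_primeFactorsList hc]
    exact h
  rw [Nat.cast_list_prod] at h1
  have h2 : ∀ l : List ℕ, (l.map (Nat.cast : ℕ → OQ)).prod ∈ P → ∃ a ∈ l, (a : OQ) ∈ P := by
    intro l
    induction l with
    | nil =>
      intro h
      rw [List.map_nil, List.prod_nil] at h
      exact absurd ((Ideal.eq_top_iff_one P).2 h) hP.ne_top
    | cons a l ih =>
      intro h
      rw [List.map_cons, List.prod_cons] at h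
      rcases hP.mem_or_mem h with h | h
      · exact ⟨a, List.mem_cons_self, h⟩
      · obtain ⟨b, hb, hb'⟩ := ih h
        exact ⟨b, List.mem_cons_of_mem _ hb, hb'⟩
  obtain ⟨a, ha, ha'⟩ := h2 _ h1
  exact ⟨a, Nat.mem_primeFactors.2 ⟨Nat.prime_of_mem_primeFactorsList ha,
    Nat.dvd_of_mem_primeFactorsList ha, hc⟩, ha'⟩

/-- **The ramified primes lie in finitely many orbits.** -/
theorem fam_finite (c : Loc) {p : ℕ} (hp : p.Prime) {D : Subgroup GQ}
    (hD : (Kinf p).fixingSubgroup ≤ D) {K : Subgroup GQ} (hKo : IsOpen (K : Set GQ))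
    (hKf : K.index ≠ 0) :
    ∃ T : Finset (Ideal OQ), ∀ w, fam c p w ⊓ D ≤ K ∨ ∃ u ∈ T, ∃ d ∈ D, w = d • u := by
  classical
  have hfd := finite_fixed hKo hKf
  have hfix := fix_fixed hKo
  obtain ⟨b, hb0, hb⟩ := exists_bad' (fixedField K)
  rw [hfix] at hb
  choose! T hT using fun (ℓ : ℕ) (hℓ : ℓ.Prime) => fin_all (p := p) hp hℓ
  refine ⟨(b * p).primeFactors.biUnion T, fun w => ?_⟩
  by_cases hm : w.IsMaximal
  · by_cases hpw : (p : OQ) ∈ w
    · right
      obtain ⟨u, hu, d, hd, h⟩ := hT p hp w hm hpw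
      refine ⟨u, Finset.mem_biUnion.2 ⟨p, ?_, hu⟩, d, hD hd, h⟩
      exact Nat.mem_primeFactors.2 ⟨hp, dvd_mul_left _ _, mul_ne_zero hb0 hp.ne_zero⟩
    · rw [fam_away hm hpw]
      by_cases h : w.inertia GQ ≤ K
      · exact Or.inl (inf_le_left.trans h)
      · right
        obtain ⟨σ, hσ, hσK⟩ := SetLike.not_le_iff_exists.1 h
        obtain ⟨ℓ, hℓ, hℓw⟩ := exists_prime' hm.isPrime hb0 (hb w hm.isPrime σ hσ hσK)
        obtain ⟨u, hu, d, hd, h⟩ := hT ℓ (Nat.prime_of_mem_primeFactors hℓ) w hm hℓw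
        refine ⟨u, Finset.mem_biUnion.2 ⟨ℓ, ?_, hu⟩, d, hD hd, h⟩
        exact Nat.mem_primeFactors.2 ⟨Nat.prime_of_mem_primeFactors hℓ,
          (Nat.dvd_of_mem_primeFactors hℓ).trans (dvd_mul_right _ _), mul_ne_zero hb0 hp.ne_zero⟩
  · left
    rw [fam_not hm]
    exact inf_le_left.trans bot_le

end Pool.Agent.K1H37.MU
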