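import Pool.Agent.Q60.MU.Reduction

/-!
# The reduction theorem over a normal subgroup of infinite index
-/

set_option autoImplicit false

namespace Pool.Agent.K1H37.MU

open Subgroup Module Pool.Agent.Q60.MU
open scoped commutatorElement

section coind

variable {k : Type} [Field k] {𝔾 : Type} [Group 𝔾] {K D : Subgroup 𝔾}
  {S : Type} [AddCommGroup S] [Module k S] (σ : Representation k D S)

theorem Y_finite' [Module.Finite k S] (hKn : K.Normal) (hKf : K.index ≠ 0) :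
    Module.Finite k (Y σ K) := by
  classical
  have hfi : K.FiniteIndex := ⟨hKf⟩
  have hfin : Finite (𝔾 ⧸ K) := inferInstance
  let F : Y σ K →ₗ[k] ((𝔾 ⧸ K) → (S →ₗ[k] k)) :=
    { toFun := fun φ q => φ.1 q.out
      map_add' := fun φ ψ => rfl
      map_smul' := fun c φ => rfl }
  refine Module.Finite.of_injective F ?_
  intro φ ψ h
  apply Subtype.ext
  funext g
  obtain ⟨κ, hκ⟩ := QuotientGroup.mk_out_eq_mul K g
  have h1 : φ.1 ((g : 𝔾 ⧸ K).out) = ψ.1 ((g : 𝔾 ⧸ K).out) := congrFun h (g : 𝔾 ⧸ K)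
  have h2 : (g : 𝔾 ⧸ K).out = (g * κ * g⁻¹) * g := by
    rw [hκ]
    group
  rw [h2, φ.2.2 _ (hKn.conj_mem κ κ.2 g), ψ.2.2 _ (hKn.conj_mem κ κ.2 g)] at h1
  exact h1

theorem Y_pack' [Module.Finite k S] (hK : K.Normal) (hKf : K.index ≠ 0)
    (htriv : ∀ g ∈ K.subgroupOf D, ∀ x, σ g x = x) :
    ∃ (V : Type) (_ : AddCommGroup V) (_ : Module k V) (_ : Module.Finite k V)
      (τ : Representation k 𝔾 V) (ev : V → 𝔾 → (S →ₗ[k] k)),
      (∀ φ ψ, (∀ g, ev φ g = ev ψ g) → φ = ψ) ∧ (∀ g, ev 0 g = 0) ∧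
      (∀ h g φ, ev (τ h φ) g = ev φ (g * h)) ∧
      (∀ φ (d : D) g, ev φ (d * g) = (ev φ g) ∘ₗ σ d⁻¹) ∧
      (∀ φ, ∀ κ ∈ K, ∀ g, ev φ (κ * g) = ev φ g) ∧
      (∀ f₀, ∃ φ, ev φ 1 = f₀) := by
  exact ⟨Y σ K, inferInstance, inferInstance, Y_finite' σ hK hKf, τY σ K, fun φ => φ.1,
    fun φ ψ h => Subtype.ext (funext h), fun _ => rfl, fun h g φ => rfl, fun φ d g => φ.2.1 d g,
    fun φ κ hκ g => φ.2.2 κ hκ g, fun f₀ => Y_exists σ hK htriv f₀⟩

/-- **Detection by vectors in simple modules of the big group.** -/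
theorem exists_vector' [Module.Finite k S] (hK : K.Normal) (hKf : K.index ≠ 0)
    (htriv : ∀ g ∈ K.subgroupOf D, ∀ x, σ g x = x) [Nontrivial S] (Pr : Subgroup 𝔾 → Prop)
    (hPr : ∀ (Q : Type) [AddCommGroup Q] [Module k Q] [Module.Finite k Q]
      (τ : Representation k 𝔾 Q), (∀ g ∈ K, ∀ x, τ g x = x) → IsSimple τ →
      ∃ L, Pr L ∧ ∃ v : Q, v ≠ 0 ∧ L ≤ stab τ v) :
    ∃ (L : Subgroup 𝔾) (g : 𝔾), Pr L ∧
      coinv σ ((L.map (MulAut.conj g).toMonoidHom).subgroupOf D) ≠ ⊤ := by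
  classical
  obtain ⟨s, hs⟩ := exists_ne (0 : S)
  obtain ⟨f₀, hf₀⟩ : ∃ f : S →ₗ[k] k, f s ≠ 0 := by
    by_contra h
    push Not at h
    exact hs ((Module.forall_dual_apply_eq_zero_iff k s).1 h)
  obtain ⟨V, i1, i2, i3, τ, ev, hev0, hev00, hτ, hev1, hev2, hev3⟩ := Y_pack' σ hK hKf htriv
  obtain ⟨φ₀, hφ₀⟩ := hev3 f₀
  have hnt : Nontrivial V := by
    refine ⟨φ₀, 0, fun h => hf₀ ?_⟩
    rw [← hφ₀, h, hev00]
    rfl
  obtain ⟨U, hU, hU0, hsim⟩ := exists_simple_sub τ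
  have hKU : ∀ κ ∈ K, ∀ x, sub τ hU κ x = x := by
    intro κ hκ x
    apply Subtype.ext
    rw [sub_coe]
    apply hev0
    intro y
    rw [hτ]
    have h1 : y * κ = (y * κ * y⁻¹) * y := by group
    rw [h1]
    exact hev2 _ _ (hK.conj_mem κ hκ y) y
  obtain ⟨L, hL, ψ, hψ0, hP⟩ := hPr U (sub τ hU) hKU hsim
  obtain ⟨g, hg⟩ : ∃ g, ev ψ g ≠ 0 := by
    by_contra h
    push Not at h
    exact hψ0 (Subtype.ext (hev0 ψ 0 fun g => (h g).trans (hev00 g).symm))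
  refine ⟨L, g, hL, fun htop => ?_⟩
  have hq1 : ev (τ g ψ) 1 ≠ 0 := by
    rw [hτ, one_mul]
    exact hg
  apply hq1
  have h1 : coinv σ ((L.map (MulAut.conj g).toMonoidHom).subgroupOf D) ≤
      LinearMap.ker (ev (τ g ψ) 1) := by
    rw [coinv, Submodule.span_le]
    rintro _ ⟨d, ⟨x, hx, hxd⟩, v, rfl⟩
    have h2 : τ (d : 𝔾) (τ g ψ) = τ g ψ := by
      have h3 : τ x (ψ : V) = ψ := congrArg Subtype.val (hP hx)
      have h4 : (d : 𝔾) = g * x * g⁻¹ := hxd.symm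
      rw [h4, ← Module.End.mul_apply, ← map_mul, inv_mul_cancel_right, map_mul,
        Module.End.mul_apply, h3]
    have h3 : ev (τ (d : 𝔾) (τ g ψ)) 1 = ev (τ g ψ) 1 := by rw [h2]
    rw [hτ, one_mul] at h3
    have h4 := hev1 (τ g ψ) d 1
    rw [mul_one, h3] at h4
    have h5 := LinearMap.congr_fun h4 (σ d v)
    rw [LinearMap.comp_apply, ← Module.End.mul_apply, ← map_mul, inv_mul_cancel, map_one] at h5
    rw [SetLike.mem_coe, LinearMap.mem_ker, map_sub, sub_eq_zero]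
    exact h5
  rw [htop, top_le_iff, LinearMap.ker_eq_top] at h1
  exact h1

end coind

variable {𝔾 : Type} [Group 𝔾]

/-- the family of subgroups of `D` -/
def res {Ω : Type} (I : Ω → Subgroup 𝔾) (D : Subgroup 𝔾) : Ω → Subgroup D :=
  fun w => (I w).subgroupOf D

/-- the rank of `U ⊓ D` is finite -/
def MuD [TopologicalSpace 𝔾] (p : ℕ) {Ω : Type} (I : Ω → Subgroup 𝔾) (D U : Subgroup 𝔾) : Prop :=
  ∃ C, RankLe p (res I D) (U.subgroupOf D) C

theorem isOpen_subgroupOf [TopologicalSpace 𝔾] {D K : Subgroup 𝔾} (hKo : IsOpen (K : Set 𝔾)) :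
    IsOpen (K.subgroupOf D : Set D) :=
  hKo.preimage continuous_subtype_val

theorem relIndex_subgroupOf_ne_zero {D K U : Subgroup 𝔾} (hKf : K.relIndex U ≠ 0) :
    (K.subgroupOf D).relIndex (U.subgroupOf D) ≠ 0 := by
  have h1 : (K.subgroupOf D).relIndex (U.subgroupOf D) =
      K.relIndex ((U.subgroupOf D).map D.subtype) := relIndex_comap K D.subtype _
  rw [h1, subgroupOf_map_subtype]
  exact fun h => hKf (relIndex_eq_zero_of_le_right inf_le_left h)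

theorem MuD.of_le [TopologicalSpace 𝔾] {p : ℕ} {Ω : Type} {I : Ω → Subgroup 𝔾}
    {D K U : Subgroup 𝔾} (hKU : K ≤ U) (hKo : IsOpen (K : Set 𝔾))
    (hKf : K.relIndex U ≠ 0) (h : MuD p I D K) : MuD p I D U := by
  obtain ⟨C, hC⟩ := h
  exact ⟨_, RankLe.of_le (comap_mono hKU) (isOpen_subgroupOf hKo)
    (relIndex_subgroupOf_ne_zero hKf) hC⟩

theorem MuD.conj [TopologicalSpace 𝔾] [ContinuousMul 𝔾] {p : ℕ} {Ω : Type}
    [MulAction 𝔾 Ω] {I : Ω → Subgroup 𝔾}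
    (hI : ∀ (g : 𝔾) (w : Ω), ∀ x ∈ I w, g * x * g⁻¹ ∈ I (g • w)) {D : Subgroup 𝔾}
    (hDn : D.Normal) {L : Subgroup 𝔾} (h : MuD p I D L) (g : 𝔾) :
    MuD p I D (L.map (MulAut.conj g).toMonoidHom) := by
  obtain ⟨C, hC⟩ := h
  refine ⟨C, ?_⟩
  intro W hWL hWo hWf hg
  let c : D →* D := (MulAut.conjNormal g : D ≃* D).toMonoidHom
  have hc : ∀ x : D, ((c x : D) : 𝔾) = g * x * g⁻¹ := fun x => rfl
  have hcinj : Function.Injective c := (MulAut.conjNormal g : D ≃* D).injective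
  have hmap : (L.subgroupOf D).map c = (L.map (MulAut.conj g).toMonoidHom).subgroupOf D := by
    ext x
    constructor
    · rintro ⟨y, hy, rfl⟩
      exact ⟨y, hy, rfl⟩
    · rintro ⟨y, hy, hyx⟩
      have h1 : g * y * g⁻¹ = x := hyx
      have h2 : y = g⁻¹ * x * g⁻¹⁻¹ := by
        rw [← h1]
        group
      have h3 : y ∈ D := by
        rw [h2]
        exact hDn.conj_mem x x.2 g⁻¹
      exact ⟨⟨y, h3⟩, hy, Subtype.ext h1⟩
  have hidx := relIndex_comap W c (L.subgroupOf D)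
  rw [hmap] at hidx
  rw [← hidx] at hWf ⊢
  refine hC _ ?_ ?_ hWf ?_
  · intro x hx
    have h1 := hWL hx
    rw [← hmap] at h1
    obtain ⟨y, hy, hyx⟩ := h1
    rw [← hcinj hyx]
    exact hy
  · refine hWo.preimage ?_
    refine Continuous.subtype_mk (f := fun x : D => g * (x : 𝔾) * g⁻¹) ?_ _
    exact (continuous_const.mul continuous_subtype_val).mul continuous_const
  · rintro y ((⟨a, ha, rfl⟩ | ⟨a, ha, b, hb, rfl⟩) | ⟨hx, w, hw⟩)
    · exact hg (Or.inl (Or.inl ⟨_, hmap ▸ ⟨a, ha, rfl⟩, map_pow _ _ _⟩))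
    · exact hg (Or.inl (Or.inr ⟨_, hmap ▸ ⟨a, ha, rfl⟩, _, hmap ▸ ⟨b, hb, rfl⟩,
        map_commutatorElement _ _ _⟩))
    · exact hg (Or.inr ⟨hmap ▸ ⟨y, hx, rfl⟩, g • w, hI g w y hw⟩)

/-- **The reduction theorem.** -/
theorem reduction_inf [TopologicalSpace 𝔾] [ContinuousMul 𝔾] {p : ℕ} [Fact p.Prime] {Ω : Type}
    [MulAction 𝔾 Ω] {I : Ω → Subgroup 𝔾}
    (hI : ∀ (g : 𝔾) (w : Ω), ∀ x ∈ I w, g * x * g⁻¹ ∈ I (g • w))
    {D : Subgroup 𝔾} (hDn : D.Normal) {K : Subgroup 𝔾} (hKn : K.Normal) (hKf : K.index ≠ 0)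
    (T : Finset Ω) (hT : ∀ w, I w ⊓ D ≤ K ∨ ∃ u ∈ T, ∃ d ∈ D, w = d • u)
    (hvec : ∀ (S : Type) [AddCommGroup S] [Module (ZMod p) S] [Module.Finite (ZMod p) S]
      (τ : Representation (ZMod p) 𝔾 S), (∀ g ∈ K, ∀ x, τ g x = x) → IsSimple τ →
      ∃ L, (K ≤ L ∧ MuD p I D L) ∧ ∃ v : S, v ≠ 0 ∧ L ≤ stab τ v) :
    MuD p I D K := by
  classical
  -- the finite set of subgroups with bounded ranks
  have hfin : {L : Subgroup 𝔾 | K ≤ L ∧ MuD p I D L}.Finite :=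
    (finite_ge hKn hKf).subset fun L hL => hL.1
  set 𝓛 := hfin.toFinset with h𝓛
  have hmem : ∀ L, L ∈ 𝓛 ↔ K ≤ L ∧ MuD p I D L := fun L => by
    rw [h𝓛, Set.Finite.mem_toFinset]
    rfl
  have hC : ∃ C, ∀ L ∈ 𝓛, RankLe p (res I D) (L.subgroupOf D) C := by
    choose! c hc using fun L (hL : L ∈ 𝓛) => ((hmem L).1 hL).2
    exact ⟨𝓛.sup c, fun L hL => (hc L hL).mono (Finset.le_sup hL)⟩
  obtain ⟨C, hC⟩ := hC
  have h3 : (K.subgroupOf D).relIndex (⊤ : Subgroup D) ≠ 0 := by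
    rw [relIndex_top_right]
    have h2 : K.relIndex D ∣ K.index := relIndex_dvd_index_of_normal K _
    intro h
    have h4 : K.relIndex D = 0 := h
    rw [h4] at h2
    exact hKf (Nat.eq_zero_of_zero_dvd h2)
  have hdet : Detects (ZMod p) ((K.subgroupOf D).subgroupOf ⊤)
      (𝓛.image fun L => L.subgroupOf D) (fun L => L.subgroupOf (⊤ : Subgroup D)) := by
    intro S _ _ _ σ htriv hsim
    have hnt : Nontrivial S := hsim.1
    let σ' : Representation (ZMod p) D S := σ.comp (topEquiv (G := D)).symm.toMonoidHom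
    obtain ⟨L, g, hL, hqc⟩ := exists_vector' σ' hKn hKf
      (fun g hg x => htriv ⟨g, mem_top g⟩ hg x) (fun L => K ≤ L ∧ MuD p I D L)
      (fun Q _ _ _ τ hτ hs => hvec Q τ hτ hs)
    have h5 : L.map (MulAut.conj g).toMonoidHom ∈ 𝓛 := by
      rw [hmem]
      refine ⟨fun x hx => ?_, hL.2.conj hI hDn g⟩
      refine ⟨g⁻¹ * x * g⁻¹⁻¹, hL.1 (hKn.conj_mem x hx g⁻¹), ?_⟩
      show g * (g⁻¹ * x * g⁻¹⁻¹) * g⁻¹ = x
      group
    refine ⟨(L.map (MulAut.conj g).toMonoidHom).subgroupOf D, Finset.mem_image.2 ⟨_, h5, rfl⟩,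
      fun htop => hqc ?_⟩
    rw [← htop]
    apply le_antisymm
    · rw [coinv, Submodule.span_le]
      rintro _ ⟨d, hd, v, rfl⟩
      exact Submodule.subset_span ⟨⟨d, mem_top d⟩, hd, v, rfl⟩
    · rw [coinv, Submodule.span_le]
      rintro _ ⟨⟨d, _⟩, hd, v, rfl⟩
      exact Submodule.subset_span ⟨d, hd, v, rfl⟩
  have hcm : ContinuousMul D := Submonoid.continuousMul D.toSubmonoid
  have h5 := main_ineq (p := p) (𝔾 := D) (Ω := Ω) (I := res I D)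
    (fun g w x hx => hI g w x hx) (K := K.subgroupOf D) (D := ⊤) le_top
    (fun d _ x hx => hKn.conj_mem x hx d) h3 le_rfl (𝓛.image fun L => L.subgroupOf D) (by
      intro L hL
      obtain ⟨M, hM, rfl⟩ := Finset.mem_image.1 hL
      exact ⟨comap_mono ((hmem M).1 hM).1, le_top⟩) hdet T le_rfl
    (fun w => (hT w).imp (fun h x hx => h ⟨hx.1, x.2⟩) (by
      rintro ⟨u, hu, d, hd, rfl⟩
      exact ⟨u, hu, ⟨d, hd⟩, mem_top _, rfl⟩)) (C := C) (by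
      intro L hL
      obtain ⟨M, hM, rfl⟩ := Finset.mem_image.1 hL
      exact hC M hM)
  exact ⟨_, h5⟩

end Pool.Agent.K1H37.MU
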