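import Pool.Agent.K1H37.MU.Cyc

/-!
# The layers of the cyclotomic `ℤ_p`-extension of the rational numbers for odd `p`
-/

set_option autoImplicit false

namespace Pool.Agent.K1H37.MU

open NumberField IntermediateField Pool.Agent.Q60.MU Subgroup
open scoped Pointwise commutatorElement

theorem Klev_le_Kinf (p n : ℕ) : Klev p n ≤ Kinf p :=
  adjoin.mono ℚ _ _ fun z hz => ⟨n, hz⟩

theorem finrank_Klev {p n : ℕ} (hp : p.Prime) : Module.finrank ℚ (Klev p n) = (p ^ n).totient := by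
  obtain ⟨ζ, hζ⟩ := exists_prim p n hp
  have hne : NeZero (p ^ n) := ⟨pow_ne_zero _ hp.ne_zero⟩
  rw [Klev_eq hp hζ]
  have hcyc : IsCyclotomicExtension {p ^ n} ℚ (adjoin ℚ {ζ}) :=
    hζ.intermediateField_adjoin_isCyclotomicExtension ℚ
  exact IsCyclotomicExtension.finrank (K := ℚ) (adjoin ℚ {ζ})
    (Polynomial.cyclotomic.irreducible_rat (pow_pos hp.pos n))

theorem card_range_pow {Q : Type} [CommGroup Q] [Finite Q] {p b : ℕ} (hp : p.Prime)
    (hQ : Nat.card Q = p ^ b * (p - 1)) : Nat.card (powMonoidHom (p - 1) : Q →* Q).range = p ^ b := by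
  classical
  have hfact : Fact p.Prime := ⟨hp⟩
  set f : Q →* Q := powMonoidHom (p - 1) with hf
  have h1 : IsPGroup p f.range := by
    rintro ⟨_, x, rfl⟩
    refine ⟨b, ?_⟩
    apply Subtype.ext
    show (x ^ (p - 1)) ^ (p ^ b) = 1
    rw [← pow_mul, mul_comm, ← hQ]
    exact pow_card_eq_one'
  obtain ⟨k, hk⟩ := (IsPGroup.iff_card).1 h1
  have h2 : Nat.card f.ker * Nat.card f.range = p ^ b * (p - 1) := by
    rw [← hQ, ← f.ker.card_mul_index, index_ker]
  have h3 : ¬ p ∣ Nat.card f.ker := by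
    intro h
    obtain ⟨x, hx⟩ := exists_prime_orderOf_dvd_card' p h
    have h4 : (x : Q) ^ (p - 1) = 1 := x.2
    have h5 : x ^ (p - 1) = 1 := Subtype.ext h4
    have h6 := orderOf_dvd_of_pow_eq_one h5
    rw [hx] at h6
    have h7 := Nat.le_of_dvd (by have := hp.two_le; omega) h6
    have := hp.two_le
    omega
  rw [hk] at h2 ⊢
  have h4 : p ^ b ∣ p ^ k := by
    have h5 : p ^ b ∣ Nat.card f.ker * p ^ k := by
      rw [h2]
      exact dvd_mul_right _ _
    exact (Nat.Coprime.dvd_mul_left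
      (Nat.Coprime.pow_left b ((Nat.Prime.coprime_iff_not_dvd hp).2 h3))).1 h5
  have h5 : p ^ k ∣ p ^ b := by
    have h6 : p ^ k ∣ p ^ b * (p - 1) := by
      rw [← h2]
      exact dvd_mul_left _ _
    refine (Nat.Coprime.dvd_mul_right (Nat.Coprime.pow_left k ?_)).1 h6
    rw [Nat.Prime.coprime_iff_not_dvd hp]
    intro h
    have h7 := Nat.le_of_dvd (by have := hp.two_le; omega) h
    have := hp.two_le
    omega
  exact Nat.dvd_antisymm h5 h4

theorem exists_layer {p : ℕ} (hp : p.Prime) (h2 : p ≠ 2) (b : ℕ) :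
    ∃ E : IntermediateField ℚ Qb, E ≤ Kinf p ∧ Module.finrank ℚ E = p ^ b ∧ TotReal E := by
  classical
  set U := (Klev p (b + 1)).fixingSubgroup with hU
  have hUn : U.Normal := normal_of_le hp (Klev_le_Kinf p (b + 1))
  have hfd := Klev_finite (n := b + 1) hp
  have hUo : IsOpen (U : Set GQ) := (Klev p (b + 1)).fixingSubgroup_isOpen
  have hUi : U.index = p ^ b * (p - 1) := by
    rw [hU, ← finrank_eq_fixingSubgroup_index, finrank_Klev hp, Nat.totient_prime_pow_succ hp]
  have hUf : U.FiniteIndex := ⟨Klev_index hp⟩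
  have hfin : Finite (GQ ⧸ U) := inferInstance
  let inst : CommGroup (GQ ⧸ U) :=
    { (inferInstance : Group (GQ ⧸ U)) with
      mul_comm := by
        intro x y
        obtain ⟨σ, rfl⟩ := QuotientGroup.mk_surjective x
        obtain ⟨τ, rfl⟩ := QuotientGroup.mk_surjective y
        rw [← QuotientGroup.mk_mul, ← QuotientGroup.mk_mul, QuotientGroup.eq]
        rw [hU, IntermediateField.mem_fixingSubgroup_iff]
        intro x hx
        have h3 := agree (p := p) (n := b + 1) (σ := τ * σ) (τ := σ * τ)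
          (fun z hz => (roots_comm hp τ σ hz)) hx
        show ((σ * τ)⁻¹ * (τ * σ)) x = x
        rw [AlgEquiv.mul_apply, h3, ← AlgEquiv.mul_apply, inv_mul_cancel, AlgEquiv.one_apply] }
  let f : GQ →* (GQ ⧸ U) := (powMonoidHom (p - 1) : (GQ ⧸ U) →* (GQ ⧸ U)).comp (QuotientGroup.mk' U)
  have hUle : U ≤ f.ker := by
    intro σ hσ
    show (QuotientGroup.mk (s := U) σ) ^ (p - 1) = 1
    rw [(QuotientGroup.eq_one_iff σ).2 hσ, one_pow]
  have hHo : IsOpen (f.ker : Set GQ) := Subgroup.isOpen_mono hUle hUo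
  have hfix := fix_fixed hHo
  refine ⟨fixedField f.ker, ?_, ?_, ?_⟩
  · refine le_trans (fixedField_antitone hUle) ?_
    rw [hU, InfiniteGalois.fixedField_fixingSubgroup]
    exact Klev_le_Kinf p (b + 1)
  · rw [finrank_eq_fixingSubgroup_index, hfix, index_ker]
    have h3 : f.range = (powMonoidHom (p - 1) : (GQ ⧸ U) →* (GQ ⧸ U)).range := by
      rw [MonoidHom.range_comp, MonoidHom.range_eq_top.2 (QuotientGroup.mk'_surjective U),
        ← MonoidHom.range_eq_map]
    rw [h3]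
    exact card_range_pow hp hUi
  · rw [totReal_iff]
    intro φ σ hσ
    rw [hfix]
    show (QuotientGroup.mk (s := U) σ) ^ (p - 1) = 1
    obtain ⟨k, hk⟩ : 2 ∣ p - 1 := by
      have h3 := hp.eq_two_or_odd.resolve_left h2
      omega
    rw [hk, pow_mul, ← QuotientGroup.mk_pow, hσ.sq, QuotientGroup.mk_one, one_pow]

theorem exists_layer_Qcyc {p : ℕ} (hp : p.Prime) (h2 : p ≠ 2) (b : ℕ) :
    ∃ E : IntermediateField ℚ Qb, E ≤ Qcyc p ∧ Module.finrank ℚ E = p ^ b := by
  obtain ⟨E, h1, h3, h4⟩ := exists_layer hp h2 b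
  exact ⟨E, le_sSup ⟨h1, ⟨b, h3⟩, h4⟩, h3⟩

end Pool.Agent.K1H37.MU
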