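import Pool.Agent.K1H37.MU.Arith
import Pool.Agent.W571.FM.Frob
import Pool.Agent.W569.UF.Disc
import Pool.Agent.Q60.MU.Fields

/-!
# The primes of the field of all `p`-power roots of unity
-/

set_option autoImplicit false

namespace Pool.Agent.K1H37.MU

open NumberField IntermediateField Pool.Agent.Q60.MU
open scoped Pointwise

/-- the ring of all algebraic integers -/
abbrev OQ : Type := 𝓞 Qb

/-- the absolute Galois group of `ℚ` -/
abbrev GQ : Type := Gal(Qb/ℚ)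

instance isInt_Qb : Algebra.IsIntegral ℚ Qb := Algebra.IsAlgebraic.isIntegral

theorem coe_smul' (σ : GQ) (x : OQ) : ((σ • x : OQ) : Qb) = σ x := rfl

/-- **Transitivity** of the absolute Galois group of `M` on the primes with a given contraction. -/
theorem trans_under (M : IntermediateField ℚ Qb) (P Q : Ideal (OQ)) (hP : P.IsPrime)
    (hQ : Q.IsPrime) (h : ∀ x : OQ, (x : Qb) ∈ M → (x ∈ P ↔ x ∈ Q)) :
    ∃ g ∈ M.fixingSubgroup, Q = g • P := by
  classical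
  have hclosed : IsClosed (M.fixingSubgroup : Set Gal(Qb/ℚ)) :=
    InfiniteGalois.fixingSubgroup_isClosed M
  have hcomm : SMulCommClass M.fixingSubgroup (𝓞 M) (𝓞 Qb) := Pool.Agent.W569.UF.Disc.smulComm M
  have hinv : Algebra.IsInvariant (𝓞 M) (𝓞 Qb) M.fixingSubgroup := Pool.Agent.W569.UF.Disc.isInv M
  have hcpt : CompactSpace M.fixingSubgroup := isCompact_iff_compactSpace.1 hclosed.isCompact
  let _ : TopologicalSpace (𝓞 Qb) := ⊥
  have : DiscreteTopology (𝓞 Qb) := ⟨rfl⟩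
  have hcont : ContinuousSMul Gal(Qb/ℚ) (𝓞 Qb) := by
    rw [continuousSMul_iff_stabilizer_isOpen]
    intro x
    have h1 := stabilizer_isOpen_of_isIntegral (K := ℚ) (x : Qb)
    convert h1 using 2
    ext g
    rw [MulAction.mem_stabilizer_iff, MulAction.mem_stabilizer_iff]
    constructor
    · intro h
      exact congrArg (fun z : 𝓞 Qb => (z : Qb)) h
    · intro h
      exact RingOfIntegers.ext h
  have hcontU : ContinuousSMul M.fixingSubgroup (𝓞 Qb) := inferInstance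
  obtain ⟨g, hg⟩ := Algebra.IsInvariant.exists_smul_of_under_eq_of_profinite (A := 𝓞 M)
    (G := M.fixingSubgroup) P Q (by
      ext a
      rw [Ideal.under_def, Ideal.mem_comap, Ideal.under_def, Ideal.mem_comap]
      exact h _ (a : M).2)
  exact ⟨g, g.2, hg⟩

theorem trans_Q {l : ℕ} (hl : l.Prime) {P Q : Ideal (OQ)} (hP : P.IsMaximal)
    (hQ : Q.IsMaximal) (hlP : (l : OQ) ∈ P) (hlQ : (l : OQ) ∈ Q) :
    ∃ g : GQ, ∀ x : OQ, x ∈ P ↔ g⁻¹ • x ∈ Q :=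
  Pool.Agent.W571.FM.exists_smul (K := ℚ) Q P hQ.isPrime hP.isPrime
    ((Pool.Agent.W571.FM.cm_eq hl hQ hlQ).trans (Pool.Agent.W571.FM.cm_eq hl hP hlP).symm)

theorem frob_Q {l : ℕ} (hl : l.Prime) : ∃ P : Ideal OQ, P.IsMaximal ∧ (l : OQ) ∈ P ∧
    ∃ σ : GQ, ∀ x : OQ, σ • x - x ^ l ∈ P :=
  (Pool.Agent.W571.FM.main l hl).1

/-- the field generated by the `p ^ n`-th roots of unity -/
noncomputable def Klev (p n : ℕ) : IntermediateField ℚ Qb := adjoin ℚ {z : Qb | z ^ (p ^ n) = 1}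

/-- the field generated by all roots of unity of `p`-power order -/
noncomputable def Kinf (p : ℕ) : IntermediateField ℚ Qb :=
  adjoin ℚ {z : Qb | ∃ n : ℕ, z ^ (p ^ n) = 1}

theorem Klev_mono (p : ℕ) {m n : ℕ} (h : m ≤ n) : Klev p m ≤ Klev p n := by
  refine adjoin.mono ℚ _ _ ?_
  intro z hz
  obtain ⟨k, rfl⟩ := Nat.exists_eq_add_of_le h
  show z ^ (p ^ (m + k)) = 1
  have h1 : z ^ (p ^ m) = 1 := hz
  rw [pow_add, pow_mul, h1, one_pow]

theorem mem_Klev {p n : ℕ} {z : Qb} (hz : z ^ (p ^ n) = 1) : z ∈ Klev p n :=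
  subset_adjoin _ _ hz

theorem exists_Klev {p : ℕ} {x : Qb} (hx : x ∈ Kinf p) : ∃ n, x ∈ Klev p n := by
  refine adjoin_induction ℚ (p := fun x _ => ∃ n, x ∈ Klev p n) ?_ ?_ ?_ ?_ ?_ hx
  · rintro z ⟨n, hz⟩
    exact ⟨n, mem_Klev hz⟩
  · intro q
    exact ⟨0, IntermediateField.algebraMap_mem _ q⟩
  · rintro x y _ _ ⟨m, hm⟩ ⟨n, hn⟩
    exact ⟨max m n, add_mem (Klev_mono p (le_max_left _ _) hm) (Klev_mono p (le_max_right _ _) hn)⟩
  · rintro x _ ⟨m, hm⟩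
    exact ⟨m, inv_mem hm⟩
  · rintro x y _ _ ⟨m, hm⟩ ⟨n, hn⟩
    exact ⟨max m n, mul_mem (Klev_mono p (le_max_left _ _) hm) (Klev_mono p (le_max_right _ _) hn)⟩

/-- two automorphisms which agree on the roots of unity agree -/
theorem agree {p n : ℕ} {σ τ : GQ} (h : ∀ z : Qb, z ^ (p ^ n) = 1 → σ z = τ z) {x : Qb}
    (hx : x ∈ Klev p n) : σ x = τ x := by
  refine adjoin_induction ℚ (p := fun x _ => σ x = τ x) ?_ ?_ ?_ ?_ ?_ hx
  · exact fun z hz => h z hz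
  · intro q
    rw [AlgEquiv.commutes, AlgEquiv.commutes]
  · intro x y _ _ h1 h2
    rw [map_add, map_add, h1, h2]
  · intro x _ h1
    rw [map_inv₀, map_inv₀, h1]
  · intro x y _ _ h1 h2
    rw [map_mul, map_mul, h1, h2]

theorem Klev_stable {p n : ℕ} (σ : GQ) {x : Qb} (hx : x ∈ Klev p n) : σ x ∈ Klev p n := by
  refine adjoin_induction ℚ (p := fun x _ => σ x ∈ Klev p n) ?_ ?_ ?_ ?_ ?_ hx
  · intro z hz
    apply mem_Klev
    rw [← map_pow]
    have h1 : z ^ (p ^ n) = 1 := hz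
    rw [h1, map_one]
  · intro q
    rw [AlgEquiv.commutes]
    exact IntermediateField.algebraMap_mem _ q
  · intro x y _ _ h1 h2
    rw [map_add]
    exact add_mem h1 h2
  · intro x _ h1
    rw [map_inv₀]
    exact inv_mem h1
  · intro x y _ _ h1 h2
    rw [map_mul]
    exact mul_mem h1 h2

theorem exists_prim (p n : ℕ) (hp : p.Prime) : ∃ ζ : Qb, IsPrimitiveRoot ζ (p ^ n) := by
  have : NeZero (p ^ n) := ⟨pow_ne_zero _ hp.ne_zero⟩
  exact HasEnoughRootsOfUnity.exists_primitiveRoot Qb (p ^ n)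

theorem Klev_eq {p n : ℕ} (hp : p.Prime) {ζ : Qb} (hζ : IsPrimitiveRoot ζ (p ^ n)) :
    Klev p n = adjoin ℚ {ζ} := by
  have : NeZero (p ^ n) := ⟨pow_ne_zero _ hp.ne_zero⟩
  apply le_antisymm
  · refine adjoin_le_iff.2 ?_
    intro z hz
    obtain ⟨i, _, rfl⟩ := hζ.eq_pow_of_pow_eq_one hz
    exact pow_mem (subset_adjoin _ _ (Set.mem_singleton ζ)) i
  · refine adjoin_le_iff.2 ?_
    intro z hz
    rw [Set.mem_singleton_iff.1 hz]
    exact mem_Klev hζ.pow_eq_one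

theorem Klev_finite {p n : ℕ} (hp : p.Prime) : FiniteDimensional ℚ (Klev p n) := by
  obtain ⟨ζ, hζ⟩ := exists_prim p n hp
  rw [Klev_eq hp hζ]
  apply adjoin.finiteDimensional
  exact hζ.isIntegral (pow_pos hp.pos _) |>.tower_top

theorem Klev_index {p n : ℕ} (hp : p.Prime) : (Klev p n).fixingSubgroup.index ≠ 0 := by
  have := Klev_finite (n := n) hp
  rw [← finrank_eq_fixingSubgroup_index]
  exact (Module.finrank_pos (R := ℚ) (M := Klev p n)).ne'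

/-- roots of unity of `p`-power order are incongruent modulo a prime away from `p` -/
theorem root_cong {p n : ℕ} {Q : Ideal (OQ)} (hQ : Q.IsPrime) (hpQ : (p : OQ) ∉ Q)
    {a b : OQ} (ha : a ^ (p ^ n) = 1) (hb : b ^ (p ^ n) = 1) (h : a - b ∈ Q) : a = b := by
  by_contra hne
  have h1 := (Commute.all a b).geom_sum₂_mul (p ^ n)
  rw [ha, hb, sub_self] at h1
  have h2 := (mul_eq_zero.1 h1).resolve_right (sub_ne_zero.2 hne)
  have hab : Ideal.Quotient.mk Q a = Ideal.Quotient.mk Q b := Ideal.Quotient.eq.2 h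
  have h3 := congrArg (Ideal.Quotient.mk Q) h2
  rw [map_sum, map_zero] at h3
  have h4 : ∀ i ∈ Finset.range (p ^ n), Ideal.Quotient.mk Q (a ^ i * b ^ (p ^ n - 1 - i)) =
      (Ideal.Quotient.mk Q a) ^ (p ^ n - 1) := by
    intro i hi
    rw [Finset.mem_range] at hi
    rw [map_mul, map_pow, map_pow, ← hab, ← pow_add]
    congr 1
    omega
  rw [Finset.sum_congr rfl h4, Finset.sum_const, Finset.card_range, nsmul_eq_mul] at h3
  have h5 : (Ideal.Quotient.mk Q a) ^ (p ^ n) = 1 := by rw [← map_pow, ha, map_one]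
  rcases Nat.eq_zero_or_pos (p ^ n) with h6 | h6
  · -- then `p = 0`
    have h7 : p = 0 := by
      by_contra h8
      exact absurd h6 (pow_ne_zero _ h8)
    apply hpQ
    rw [h7, Nat.cast_zero]
    exact Q.zero_mem
  have h7 : ((p ^ n : ℕ) : OQ ⧸ Q) = 0 := by
    have h8 := congrArg (fun z => z * Ideal.Quotient.mk Q a) h3
    simp only [zero_mul] at h8
    rwa [mul_assoc, ← pow_succ, Nat.sub_add_cancel h6, h5, mul_one] at h8
  rw [← map_natCast (Ideal.Quotient.mk Q), Ideal.Quotient.eq_zero_iff_mem, Nat.cast_pow] at h7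
  exact hpQ (hQ.mem_of_pow_mem _ h7)

theorem prim_pow {ζ : Qb} {k : ℕ} (hk : 0 < k) (hζ : IsPrimitiveRoot ζ k) {i j : ℕ} :
    ζ ^ i = ζ ^ j ↔ (k : ℤ) ∣ (i : ℤ) - j := by
  have h1 : IsOfFinOrder ζ := isOfFinOrder_iff_pow_eq_one.2 ⟨k, hk, hζ.pow_eq_one⟩
  rw [h1.pow_eq_pow_iff_modEq, ← hζ.eq_orderOf, Nat.modEq_iff_dvd, dvd_sub_comm]

/-- an automorphism fixing the roots of unity of order `p ^ N` acts on all roots of unity of
`p`-power order like a power of the Frobenius at `ℓ` -/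
theorem acts_pow {p ℓ N : ℕ} (hp : p.Prime)
    (hN : ∀ (n : ℕ) (y : ℤ), (p : ℤ) ^ N ∣ y - 1 → ∃ k : ℕ, (p : ℤ) ^ n ∣ (ℓ : ℤ) ^ k - y)
    {h : GQ} (hh : h ∈ (Klev p N).fixingSubgroup) (n : ℕ) :
    ∃ k : ℕ, ∀ z : Qb, z ^ (p ^ n) = 1 → h z = z ^ (ℓ ^ k) := by
  set m := max n N with hm
  have hne : NeZero (p ^ m) := ⟨pow_ne_zero _ hp.ne_zero⟩
  obtain ⟨ζ, hζ⟩ := exists_prim p m hp
  have h1 : (h ζ) ^ (p ^ m) = 1 := by rw [← map_pow, hζ.pow_eq_one, map_one]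
  obtain ⟨a, _, ha⟩ := hζ.eq_pow_of_pow_eq_one h1
  have h2 : h (ζ ^ (p ^ (m - N))) = ζ ^ (p ^ (m - N)) := by
    refine (mem_fixingSubgroup_iff _ _).1 hh _ (mem_Klev ?_)
    rw [← pow_mul, ← pow_add, Nat.sub_add_cancel (le_max_right _ _)]
    exact hζ.pow_eq_one
  rw [map_pow, ← ha, ← pow_mul] at h2
  have h3 : (p : ℤ) ^ N ∣ (a : ℤ) - 1 := by
    have h5 : ((p ^ m : ℕ) : ℤ) ∣ (a * p ^ (m - N) : ℕ) - (p ^ (m - N) : ℕ) :=
      (prim_pow (pow_pos hp.pos m) hζ).1 h2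
    push_cast at h5
    have h6 : (p : ℤ) ^ m = (p : ℤ) ^ N * (p : ℤ) ^ (m - N) := by
      rw [← pow_add]
      congr 1
      have := le_max_right n N
      omega
    rw [h6] at h5
    have h7 : (a : ℤ) * (p : ℤ) ^ (m - N) - (p : ℤ) ^ (m - N) = (a - 1) * (p : ℤ) ^ (m - N) := by
      ring
    rw [h7] at h5
    exact Int.dvd_of_mul_dvd_mul_right (pow_ne_zero _ (by exact_mod_cast hp.ne_zero)) h5
  obtain ⟨k, hk⟩ := hN m a h3
  refine ⟨k, fun z hz => ?_⟩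
  have h4 : ζ ^ a = ζ ^ (ℓ ^ k) := by
    refine (prim_pow (pow_pos hp.pos m) hζ).2 ?_
    rw [dvd_sub_comm]
    push_cast
    exact hk
  have hz' : z ^ (p ^ m) = 1 := by
    obtain ⟨c, hc⟩ := Nat.exists_eq_add_of_le (le_max_left n N)
    rw [hm, hc, pow_add, pow_mul, hz, one_pow]
  obtain ⟨i, _, rfl⟩ := hζ.eq_pow_of_pow_eq_one hz'
  rw [map_pow, ← ha, h4, ← pow_mul, ← pow_mul, mul_comm]

theorem exists_frob {ℓ : ℕ} (hℓ : ℓ.Prime) : ∃ (Q : Ideal (OQ)) (g : GQ), Q.IsMaximal ∧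
    (ℓ : OQ) ∈ Q ∧ (∀ x : OQ, g • x - x ^ ℓ ∈ Q) ∧ ∀ k : ℕ, ∀ x, (g ^ k)⁻¹ • x ∈ Q ↔ x ∈ Q := by
  obtain ⟨Q, hQ, hℓQ, g, hg⟩ := frob_Q hℓ
  have h1 : ∀ x, x ∈ Q → g • x ∈ Q := by
    intro x hx
    have h2 := Q.add_mem (hg x) (Q.pow_mem_of_mem hx ℓ hℓ.pos)
    rwa [sub_add_cancel] at h2
  have h2 : ∀ x, g • x ∈ Q → x ∈ Q := by
    intro x hx
    have h3 := Q.sub_mem hx (hg x)
    rw [sub_sub_cancel] at h3
    exact hQ.isPrime.mem_of_pow_mem _ h3
  refine ⟨Q, g, hQ, hℓQ, hg, fun k => ?_⟩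
  have h3 : ∀ x, g ^ k • x ∈ Q ↔ x ∈ Q := by
    induction k with
    | zero => intro x; rw [pow_zero, one_smul]
    | succ k ih =>
      intro x
      rw [pow_succ, mul_smul, ih]
      exact ⟨h2 x, h1 x⟩
  intro x
  rw [← h3 ((g ^ k)⁻¹ • x), smul_inv_smul]

/-- **Finitely many primes** of the field of all roots of unity of `p`-power order above `ℓ ≠ p`. -/
theorem fin_ne {p ℓ : ℕ} (hp : p.Prime) (hℓ : ℓ.Prime) (hne : ℓ ≠ p) :
    ∃ T : Finset (Ideal (OQ)), ∀ P : Ideal (OQ), P.IsMaximal → (ℓ : OQ) ∈ P →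
      ∃ u ∈ T, ∃ d ∈ (Kinf p).fixingSubgroup, P = d • u := by
  classical
  obtain ⟨N, hN⟩ := exists_level hp hℓ hne
  obtain ⟨Q, g, hQ, hℓQ, hg, hgQ⟩ := exists_frob hℓ
  have hpQ : (p : OQ) ∉ Q := by
    intro h
    have h1 : IsCoprime (ℓ : ℤ) (p : ℤ) := by
      rw [Nat.isCoprime_iff_coprime]
      exact (Nat.coprime_primes hℓ hp).2 hne
    obtain ⟨a, b, hab⟩ := h1
    apply hQ.ne_top
    rw [Ideal.eq_top_iff_one]
    have h2 := congrArg (Int.cast : ℤ → OQ) hab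
    push_cast at h2
    rw [← h2]
    exact Q.add_mem (Q.mul_mem_left _ hℓQ) (Q.mul_mem_left _ h)
  -- the action of the Frobenius on roots of unity
  have hgz : ∀ n (z : Qb), z ^ (p ^ n) = 1 → g z = z ^ ℓ := by
    intro n z hz
    have hzi : IsIntegral ℤ z := by
      refine IsIntegral.of_pow (pow_pos hp.pos n) ?_
      rw [hz]
      exact isIntegral_one
    let z' : OQ := ⟨z, hzi⟩
    have hz' : z' ^ (p ^ n) = 1 := by
      apply RingOfIntegers.ext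
      rw [RingOfIntegers.coe_eq_algebraMap, RingOfIntegers.coe_eq_algebraMap, map_pow, map_one]
      exact hz
    have h1 : g • z' = z' ^ ℓ := by
      refine root_cong hQ.isPrime hpQ (n := n) ?_ ?_ (hg z')
      · rw [← smul_pow', hz', smul_one]
      · rw [← pow_mul, mul_comm, pow_mul, hz', one_pow]
    have h2 := congrArg (fun y : OQ => (y : Qb)) h1
    simp only [RingOfIntegers.coe_eq_algebraMap, map_pow] at h2
    exact h2
  have hgk : ∀ k n (z : Qb), z ^ (p ^ n) = 1 → (g ^ k) z = z ^ (ℓ ^ k) := by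
    intro k
    induction k with
    | zero => intro n z _; simp
    | succ k ih =>
      intro n z hz
      rw [pow_succ', AlgEquiv.mul_apply, ih n z hz, map_pow, hgz n z hz, ← pow_mul, pow_succ,
        mul_comm]
  have hfi : (Klev p N).fixingSubgroup.FiniteIndex := ⟨Klev_index hp⟩
  have ft : Fintype (GQ ⧸ (Klev p N).fixingSubgroup) := Fintype.ofFinite _
  refine ⟨Finset.univ.image (fun q : GQ ⧸ (Klev p N).fixingSubgroup => q.out • Q), ?_⟩
  intro P hP hℓP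
  obtain ⟨h, hh⟩ := trans_Q hℓ hP hQ hℓP hℓQ
  refine ⟨_, Finset.mem_image.2 ⟨QuotientGroup.mk (s := (Klev p N).fixingSubgroup) h,
    Finset.mem_univ _, rfl⟩, ?_⟩
  obtain ⟨κ, hκ⟩ := QuotientGroup.mk_out_eq_mul (Klev p N).fixingSubgroup h
  refine trans_under (Kinf p) _ P (Ideal.IsPrime.smul_iff _ |>.2 hQ.isPrime) hP.isPrime ?_
  intro x hx
  obtain ⟨n, hn⟩ := exists_Klev hx
  obtain ⟨k, hk⟩ := acts_pow hp hN κ.2 n
  rw [Ideal.mem_pointwise_smul_iff_inv_smul_mem, hh, hκ, mul_inv_rev, mul_smul]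
  have h1 : (κ : GQ)⁻¹ • (h⁻¹ • x) = (g ^ k)⁻¹ • (h⁻¹ • x) := by
    rw [inv_smul_eq_iff]
    apply RingOfIntegers.ext
    have h2 : (((g ^ k)⁻¹ • (h⁻¹ • x) : OQ) : Qb) ∈ Klev p n := by
      rw [coe_smul', coe_smul']
      exact Klev_stable _ (Klev_stable _ hn)
    have h3 := agree (σ := (κ : GQ)) (τ := g ^ k) (fun z hz => (hk z hz).trans (hgk k n z hz).symm) h2
    have h4 : ((g ^ k) • ((g ^ k)⁻¹ • (h⁻¹ • x)) : OQ) = h⁻¹ • x := smul_inv_smul _ _
    calc ((h⁻¹ • x : OQ) : Qb) = (((g ^ k) • ((g ^ k)⁻¹ • (h⁻¹ • x)) : OQ) : Qb) := by rw [h4]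
      _ = (g ^ k) (((g ^ k)⁻¹ • (h⁻¹ • x) : OQ) : Qb) := rfl
      _ = (κ : GQ) (((g ^ k)⁻¹ • (h⁻¹ • x) : OQ) : Qb) := h3.symm
      _ = (((κ : GQ) • ((g ^ k)⁻¹ • (h⁻¹ • x)) : OQ) : Qb) := rfl
  rw [h1, hgQ]

theorem one_cong {p n : ℕ} (hp : p.Prime) (P : Ideal OQ) (hP : P.IsMaximal)
    (hpP : (p : OQ) ∈ P) {z : OQ} (hz : z ^ (p ^ n) = 1) (i : ℕ) : z ^ i - 1 ∈ P := by
  have hfact : Fact p.Prime := ⟨hp⟩
  apply hP.isPrime.mem_of_pow_mem (p ^ n)
  have hnt : Nontrivial (OQ ⧸ P) := Ideal.Quotient.nontrivial_iff.2 hP.ne_top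
  have hchar : CharP (OQ ⧸ P) p := by
    refine ringChar.of_eq (CharP.ringChar_of_prime_eq_zero hp ?_)
    rw [← map_natCast (Ideal.Quotient.mk P)]
    exact Ideal.Quotient.eq_zero_iff_mem.2 hpP
  rw [← Ideal.Quotient.eq_zero_iff_mem, map_pow, map_sub, map_pow, map_one,
    sub_pow_char_pow, ← pow_mul, mul_comm, pow_mul, ← map_pow, hz, map_one, one_pow, one_pow,
    sub_self]

/-- the ring of integers of `ℚ(ζ)` is `ℤ[ζ]`: congruences -/
theorem cong_p {p n : ℕ} (hp : p.Prime) (P : Ideal (OQ)) (hP : P.IsMaximal)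
    (hpP : (p : OQ) ∈ P) (h : GQ) (x : OQ) (hx : (x : Qb) ∈ Klev p n) : h • x - x ∈ P := by
  have hfact : Fact p.Prime := ⟨hp⟩
  have hne : NeZero (p ^ n) := ⟨pow_ne_zero _ hp.ne_zero⟩
  obtain ⟨ζ, hζ⟩ := exists_prim p n hp
  rw [Klev_eq hp hζ] at hx
  have hcyc : IsCyclotomicExtension {p ^ n} ℚ (adjoin ℚ {ζ}) :=
    hζ.intermediateField_adjoin_isCyclotomicExtension ℚ
  set ζ' : adjoin ℚ {ζ} := ⟨ζ, mem_adjoin_simple_self ℚ ζ⟩ with hζ'
  have hζp : IsPrimitiveRoot ζ' (p ^ n) := by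
    refine IsPrimitiveRoot.of_map_of_injective (f := (adjoin ℚ {ζ}).val) ?_ (RingHom.injective _)
    exact hζ
  have hic := IsCyclotomicExtension.Rat.isIntegralClosure_adjoin_singleton_of_prime_pow hζp
  have hxi : IsIntegral ℤ (⟨x, hx⟩ : adjoin ℚ {ζ}) := by
    have h1 : IsIntegral ℤ (algebraMap (adjoin ℚ {ζ}) Qb ⟨x, hx⟩) := x.2
    exact (isIntegral_algebraMap_iff (algebraMap (adjoin ℚ {ζ}) Qb).injective).1 h1
  obtain ⟨y, hy⟩ := (hic.isIntegral_iff).1 hxi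
  have key : ∀ y : adjoin ℚ {ζ}, y ∈ Algebra.adjoin ℤ ({ζ'} : Set (adjoin ℚ {ζ})) →
      ∃ z : OQ, (z : Qb) = y ∧ h • z - z ∈ P := by
    intro y hy
    refine Algebra.adjoin_induction (R := ℤ) (s := ({ζ'} : Set (adjoin ℚ {ζ})))
      (p := fun y _ => ∃ z : OQ, (z : Qb) = y ∧ h • z - z ∈ P) ?_ ?_ ?_ ?_ hy
    · intro y hy
      rw [Set.mem_singleton_iff.1 hy]
      have hzi : IsIntegral ℤ ζ := hζ.isIntegral (pow_pos hp.pos _)
      obtain ⟨z, hz⟩ : ∃ z : OQ, (z : Qb) = ζ := ⟨⟨ζ, hzi⟩, rfl⟩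
      refine ⟨z, hz, ?_⟩
      have hz1 : z ^ (p ^ n) = 1 := by
        apply RingOfIntegers.ext
        rw [RingOfIntegers.coe_eq_algebraMap, RingOfIntegers.coe_eq_algebraMap, map_pow, map_one,
          ← RingOfIntegers.coe_eq_algebraMap, hz]
        exact hζ.pow_eq_one
      have h1 : (h ζ) ^ (p ^ n) = 1 := by rw [← map_pow, hζ.pow_eq_one, map_one]
      obtain ⟨a, _, ha⟩ := hζ.eq_pow_of_pow_eq_one h1
      have h3 : h • z = z ^ a := by
        apply RingOfIntegers.ext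
        rw [coe_smul', hz, ← ha, RingOfIntegers.coe_eq_algebraMap, map_pow,
          ← RingOfIntegers.coe_eq_algebraMap, hz]
      rw [h3]
      have h4 := P.sub_mem (one_cong hp P hP hpP hz1 a) (one_cong hp P hP hpP hz1 1)
      rwa [sub_sub_sub_cancel_right, pow_one] at h4
    · intro m
      refine ⟨(m : OQ), ?_, ?_⟩
      · simp
      · have : h • (m : OQ) = m := by
          apply RingOfIntegers.ext
          rw [coe_smul']
          simp
        rw [this, sub_self]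
        exact P.zero_mem
    · rintro a b _ _ ⟨z, hz1, hz2⟩ ⟨w, hw1, hw2⟩
      refine ⟨z + w, ?_, ?_⟩
      · rw [RingOfIntegers.coe_eq_algebraMap, map_add]
        show (z : Qb) + (w : Qb) = _
        rw [hz1, hw1]
        rfl
      · rw [smul_add, add_sub_add_comm]
        exact P.add_mem hz2 hw2
    · rintro a b _ _ ⟨z, hz1, hz2⟩ ⟨w, hw1, hw2⟩
      refine ⟨z * w, ?_, ?_⟩
      · rw [RingOfIntegers.coe_eq_algebraMap, map_mul]
        show (z : Qb) * (w : Qb) = _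
        rw [hz1, hw1]
        rfl
      · rw [smul_mul']
        have h1 : h • z * h • w - z * w = h • z * (h • w - w) + (h • z - z) * w := by ring
        rw [h1]
        exact P.add_mem (P.mul_mem_left _ hw2) (P.mul_mem_right _ hz2)
  obtain ⟨z, hz1, hz2⟩ := key y y.2
  have h1 : z = x := by
    apply RingOfIntegers.ext
    rw [hz1]
    have := congrArg (fun t : adjoin ℚ {ζ} => (t : Qb)) hy
    exact this
  rwa [h1] at hz2

/-- **Only one prime** of the field of all roots of unity of `p`-power order above `p`. -/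
theorem fin_eq {p : ℕ} (hp : p.Prime) :
    ∃ T : Finset (Ideal (OQ)), ∀ P : Ideal (OQ), P.IsMaximal → (p : OQ) ∈ P →
      ∃ u ∈ T, ∃ d ∈ (Kinf p).fixingSubgroup, P = d • u := by
  classical
  obtain ⟨Q, g, hQ, hpQ, hg, hgQ⟩ := exists_frob hp
  refine ⟨{Q}, fun P hP hpP => ⟨Q, Finset.mem_singleton_self Q, ?_⟩⟩
  obtain ⟨h, hh⟩ := trans_Q hp hP hQ hpP hpQ
  refine trans_under (Kinf p) Q P hQ.isPrime hP.isPrime ?_
  intro x hx
  obtain ⟨n, hn⟩ := exists_Klev hx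
  rw [hh]
  have h1 := cong_p hp Q hQ hpQ h⁻¹ x hn
  constructor
  · intro h2
    have := Q.add_mem h1 h2
    rwa [sub_add_cancel] at this
  · intro h2
    have := Q.sub_mem h2 h1
    rwa [sub_sub_cancel] at this

theorem fin_all {p ℓ : ℕ} (hp : p.Prime) (hℓ : ℓ.Prime) :
    ∃ T : Finset (Ideal (OQ)), ∀ P : Ideal (OQ), P.IsMaximal → (ℓ : OQ) ∈ P →
      ∃ u ∈ T, ∃ d ∈ (Kinf p).fixingSubgroup, P = d • u := by
  by_cases h : ℓ = p
  · rw [h]
    exact fin_eq hp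
  · exact fin_ne hp hℓ h

end Pool.Agent.K1H37.MU
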