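import Pool.Agent.K1H37.MU.Detect
import Pool.Agent.W215.FM.Gen

/-!
# The field of rational numbers
-/

set_option autoImplicit false

namespace Pool.Agent.K1H37.MU

open NumberField IntermediateField Pool.Agent.Q60.MU Subgroup
open scoped Pointwise commutatorElement

/-- Minkowski's theorem -/
theorem gen_Q (E : Type) [Group E] (f : GQ →* E) (hf : IsOpen (f.ker : Set GQ))
    (hI : ∀ P : Ideal OQ, P.IsMaximal → ∀ τ : GQ, (∀ x : OQ, τ • x - x ∈ P) → f τ = 1) :
    ∀ g, f g = 1 :=
  Pool.Agent.W215.FM.main E f hf hI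

theorem minkowski (M : Subgroup GQ) (hM : M.Normal) (hMo : IsOpen (M : Set GQ))
    (h : ∀ P : Ideal OQ, P.IsMaximal → P.inertia GQ ≤ M) : M = ⊤ := by
  rw [eq_top_iff]
  intro g _
  have h1 := gen_Q (GQ ⧸ M) (QuotientGroup.mk' M) (by rw [QuotientGroup.ker_mk']; exact hMo)
    (fun P hP τ hτ => (QuotientGroup.eq_one_iff τ).2 (h P hP hτ)) g
  exact (QuotientGroup.eq_one_iff g).1 h1

/-- the compositum of the fields of `p`-power degree in a set of subfields of `Kinf p` -/
theorem pro_p {p : ℕ} (hp : p.Prime) {R : IntermediateField ℚ Qb}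
    (𝓔 : Set (IntermediateField ℚ Qb)) (hR : R = sSup 𝓔)
    (h𝓔 : ∀ E ∈ 𝓔, E ≤ Kinf p ∧ ∃ m : ℕ, Module.finrank ℚ E = p ^ m) (σ : GQ) {x : Qb}
    (hx : x ∈ R) : ∃ n : ℕ, ∀ k, n ≤ k → (σ ^ (p ^ k)) x = x := by
  let A : IntermediateField ℚ Qb :=
    { carrier := {x | ∃ n : ℕ, ∀ k, n ≤ k → (σ ^ (p ^ k)) x = x}
      mul_mem' := by
        rintro a b ⟨m, hm⟩ ⟨n, hn⟩
        refine ⟨max m n, fun k hk => ?_⟩
        rw [map_mul, hm k (le_trans (le_max_left _ _) hk), hn k (le_trans (le_max_right _ _) hk)]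
      add_mem' := by
        rintro a b ⟨m, hm⟩ ⟨n, hn⟩
        refine ⟨max m n, fun k hk => ?_⟩
        rw [map_add, hm k (le_trans (le_max_left _ _) hk), hn k (le_trans (le_max_right _ _) hk)]
      algebraMap_mem' := fun q => ⟨0, fun k _ => AlgEquiv.commutes _ q⟩
      inv_mem' := by
        rintro a ⟨m, hm⟩
        refine ⟨m, fun k hk => ?_⟩
        rw [map_inv₀, hm k hk] }
  have hA : R ≤ A := by
    rw [hR]
    refine sSup_le fun E hE => ?_
    obtain ⟨hE1, m, hm⟩ := h𝓔 E hE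
    intro x hx
    refine ⟨m, fun k hk => ?_⟩
    have hn := normal_of_le hp hE1
    have hidx : E.fixingSubgroup.index = p ^ m := by
      rw [← finrank_eq_fixingSubgroup_index, hm]
    have h1 : σ ^ (p ^ m) ∈ E.fixingSubgroup := by
      have hfi : E.fixingSubgroup.FiniteIndex := ⟨by
        rw [hidx]
        exact pow_ne_zero _ hp.ne_zero⟩
      have hfin : Finite (GQ ⧸ E.fixingSubgroup) := inferInstance
      rw [← QuotientGroup.eq_one_iff, QuotientGroup.mk_pow, ← hidx]
      exact pow_card_eq_one'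
    have h2 : σ ^ (p ^ k) ∈ E.fixingSubgroup := by
      obtain ⟨c, rfl⟩ := Nat.exists_eq_add_of_le hk
      rw [pow_add, pow_mul]
      exact E.fixingSubgroup.pow_mem h1 _
    exact (IntermediateField.mem_fixingSubgroup_iff _ _).1 h2 x hx
  exact hA hx

theorem exists_open_above {J : Subgroup GQ} (hJ : IsClosed (J : Set GQ)) (hJt : J ≠ ⊤) :
    ∃ O : Subgroup GQ, J ≤ O ∧ IsOpen (O : Set GQ) ∧ O ≠ ⊤ := by
  have hfix : (fixedField J).fixingSubgroup = J :=
    InfiniteGalois.fixingSubgroup_fixedField ⟨J, hJ⟩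
  obtain ⟨g, hg⟩ : ∃ g, g ∉ J := by
    by_contra h
    push Not at h
    exact hJt (eq_top_iff.2 fun x _ => h x)
  rw [← hfix, IntermediateField.mem_fixingSubgroup_iff] at hg
  push Not at hg
  obtain ⟨x, hx, hgx⟩ := hg
  have hfd : FiniteDimensional ℚ (adjoin ℚ {x}) :=
    adjoin.finiteDimensional (Algebra.IsIntegral.isIntegral x)
  refine ⟨(adjoin ℚ {x}).fixingSubgroup, ?_, fixingSubgroup_isOpen _, ?_⟩
  · rw [← hfix]
    exact fixingSubgroup_le (adjoin_le_iff.2 (Set.singleton_subset_iff.2 hx))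
  · intro h
    apply hgx
    have h1 : g ∈ (adjoin ℚ {x}).fixingSubgroup := by
      rw [h]
      exact mem_top g
    exact (IntermediateField.mem_fixingSubgroup_iff _ _).1 h1 x (mem_adjoin_simple_self ℚ x)

/-- a proper open subgroup containing a closed normal subgroup with pro-`p` quotient is contained
in a proper normal open subgroup -/
theorem exists_normal_above {p : ℕ} (hp : p.Prime) {O : Subgroup GQ}
    (hOo : IsOpen (O : Set GQ)) (hOt : O ≠ ⊤)
    (hpp : ∀ σ : GQ, ∃ n : ℕ, σ ^ (p ^ n) ∈ O.normalCore) :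
    ∃ M : Subgroup GQ, M.Normal ∧ O ≤ M ∧ M ≠ ⊤ := by
  classical
  have hfact : Fact p.Prime := ⟨hp⟩
  have hfin0 : Finite (GQ ⧸ O) := O.quotient_finite_of_isOpen hOo
  have hOf : O.FiniteIndex := ⟨O.index_ne_zero_of_finite⟩
  have hcf : O.normalCore.FiniteIndex := O.finiteIndex_normalCore
  have hfin : Finite (GQ ⧸ O.normalCore) := inferInstance
  have hpg : IsPGroup p (GQ ⧸ O.normalCore) := by
    intro g
    obtain ⟨σ, rfl⟩ := QuotientGroup.mk_surjective g
    obtain ⟨n, hn⟩ := hpp σ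
    refine ⟨n, ?_⟩
    rw [← QuotientGroup.mk_pow, QuotientGroup.eq_one_iff]
    exact hn
  have hnil : Group.IsNilpotent (GQ ⧸ O.normalCore) := hpg.isNilpotent
  set mk := QuotientGroup.mk' O.normalCore with hmk
  have hsurj : Function.Surjective mk := QuotientGroup.mk'_surjective _
  have hcm : (O.map mk).comap mk = O := by
    refine comap_map_eq_self ?_
    rw [hmk, QuotientGroup.ker_mk']
    exact normalCore_le O
  have hne : O.map mk ≠ ⊤ := by
    intro h
    apply hOt
    rw [← hcm, h, comap_top]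
  obtain ⟨M, hM, hOM⟩ := (eq_top_or_exists_le_coatom (O.map mk)).resolve_left hne
  have hMn : M.Normal :=
    NormalizerCondition.normal_of_coatom M Group.normalizerCondition_of_isNilpotent hM
  refine ⟨M.comap mk, hMn.comap mk, ?_, ?_⟩
  · exact hcm.ge.trans (comap_mono hOM)
  · intro h
    apply hM.1
    rw [← map_comap_eq_self_of_surjective hsurj M, h, map_top_of_surjective mk hsurj]

/-- inertia away from `p` acts trivially on roots of unity of `p`-power order -/
theorem inertia_away {p : ℕ} (hp : p.Prime) {P : Ideal OQ} (hP : P.IsMaximal)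
    (hpP : (p : OQ) ∉ P) : P.inertia GQ ≤ (Kinf p).fixingSubgroup := by
  intro σ hσ
  rw [IntermediateField.mem_fixingSubgroup_iff]
  intro x hx
  obtain ⟨n, hn⟩ := exists_Klev hx
  refine (agree (σ := σ) (τ := 1) (fun z hz => ?_) hn).trans rfl
  have hzi : IsIntegral ℤ z := by
    refine IsIntegral.of_pow (pow_pos hp.pos n) ?_
    rw [hz]
    exact isIntegral_one
  obtain ⟨z', hz'⟩ : ∃ z' : OQ, (z' : Qb) = z := ⟨⟨z, hzi⟩, rfl⟩
  have hz1 : z' ^ (p ^ n) = 1 := by
    apply RingOfIntegers.ext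
    rw [RingOfIntegers.coe_eq_algebraMap, RingOfIntegers.coe_eq_algebraMap, map_pow, map_one,
      ← RingOfIntegers.coe_eq_algebraMap, hz']
    exact hz
  have h1 : σ • z' = z' := by
    refine root_cong hP.isPrime hpP (n := n) ?_ hz1 (hσ z')
    rw [← smul_pow', hz1, smul_one]
  have h2 := congrArg (fun y : OQ => (y : Qb)) h1
  rw [← hz']
  exact h2

theorem inertia_le_stab (P : Ideal OQ) : P.inertia GQ ≤ MulAction.stabilizer GQ P := by
  intro σ hσ
  have h1 : ∀ τ ∈ P.inertia GQ, ∀ x ∈ P, τ • x ∈ P := by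
    intro τ hτ x hx
    have h2 := P.add_mem (hτ x) hx
    rwa [sub_add_cancel] at h2
  show σ • P = P
  apply le_antisymm
  · intro x hx
    rw [Ideal.mem_pointwise_smul_iff_inv_smul_mem] at hx
    have h2 := h1 σ hσ _ hx
    rwa [smul_inv_smul] at h2
  · intro x hx
    rw [Ideal.mem_pointwise_smul_iff_inv_smul_mem]
    exact h1 _ (inv_mem hσ) x hx

theorem inertia_le_fam {c : Loc} (hc : c ≠ Loc.free) (p : ℕ) {P : Ideal OQ} (hP : P.IsMaximal) :
    P.inertia GQ ≤ fam c p P := by
  classical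
  by_cases hp : (p : OQ) ∈ P
  · unfold fam
    rw [if_pos hP, if_pos hp]
    cases c with
    | unr => exact le_rfl
    | split => exact inertia_le_stab P
    | free => exact absurd rfl hc
  · rw [fam_away hP hp]

theorem inertia_closed (Q : Ideal OQ) : IsClosed (Q.inertia GQ : Set GQ) := by
  let _ : TopologicalSpace OQ := ⊥
  have hdisc : DiscreteTopology OQ := ⟨rfl⟩
  have hcont : ContinuousSMul GQ OQ := by
    rw [continuousSMul_iff_stabilizer_isOpen]
    intro x
    have h1 := stabilizer_isOpen_of_isIntegral (K := ℚ) (x : Qb)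
    convert h1 using 2
    ext g
    rw [MulAction.mem_stabilizer_iff, MulAction.mem_stabilizer_iff]
    constructor
    · intro h
      exact congrArg (fun z : OQ => (z : Qb)) h
    · intro h
      exact RingOfIntegers.ext h
  have h1 : (Q.inertia GQ : Set GQ) = ⋂ x : OQ, (fun σ : GQ => σ • x) ⁻¹' {y : OQ | y - x ∈ Q} := by
    ext σ
    rw [Set.mem_iInter]
    rfl
  rw [h1]
  exact isClosed_iInter fun x =>
    (isClosed_discrete {y : OQ | y - x ∈ Q}).preimage (continuous_id.smul continuous_const)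

theorem pow_mem_core {p : ℕ} {R : IntermediateField ℚ Qb}
    (hpp : ∀ (σ : GQ), ∀ x ∈ R, ∃ n : ℕ, ∀ k, n ≤ k → (σ ^ (p ^ k)) x = x) {C : Subgroup GQ}
    (hCn : C.Normal) (hCo : IsOpen (C : Set GQ)) (hg : ∀ d ∈ R.fixingSubgroup, d ^ p ∈ C) (σ : GQ) :
    ∃ n : ℕ, σ ^ (p ^ n) ∈ C := by
  have hOo : IsOpen ((C ⊔ R.fixingSubgroup : Subgroup GQ) : Set GQ) :=
    Subgroup.isOpen_mono le_sup_left hCo
  have hfin : Finite (GQ ⧸ (C ⊔ R.fixingSubgroup)) := quotient_finite_of_isOpen _ hOo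
  have hfd := finite_fixed hOo (index_ne_zero_of_finite)
  have hfix := fix_fixed hOo
  obtain ⟨α, hα⟩ := Field.exists_primitive_element ℚ (fixedField (C ⊔ R.fixingSubgroup))
  have hαR : (α : Qb) ∈ R := by
    have h1 : fixedField (C ⊔ R.fixingSubgroup) ≤ fixedField R.fixingSubgroup :=
      fixedField_antitone le_sup_right
    rw [InfiniteGalois.fixedField_fixingSubgroup] at h1
    exact h1 α.2
  obtain ⟨n, hn⟩ := hpp σ α hαR
  have h1 : σ ^ (p ^ n) ∈ C ⊔ R.fixingSubgroup := by
    rw [← hfix, IntermediateField.mem_fixingSubgroup_iff]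
    intro x hx
    have h2 : (⟨x, hx⟩ : fixedField (C ⊔ R.fixingSubgroup)) ∈ adjoin ℚ {α} := by
      rw [hα]
      exact mem_top
    obtain ⟨r, s, hrs⟩ := (IntermediateField.mem_adjoin_simple_iff ℚ _).1 h2
    have h3 : x = Polynomial.aeval (α : Qb) r / Polynomial.aeval (α : Qb) s := by
      have h4 := congrArg (fixedField (C ⊔ R.fixingSubgroup)).val hrs
      rw [map_div₀, ← Polynomial.aeval_algHom_apply, ← Polynomial.aeval_algHom_apply] at h4
      exact h4
    have h4 : ∀ q : Polynomial ℚ, (σ ^ (p ^ n)) (Polynomial.aeval (α : Qb) q) =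
        Polynomial.aeval (α : Qb) q := by
      intro q
      have h5 := Polynomial.aeval_algHom_apply ((σ ^ (p ^ n) : GQ) : Qb →ₐ[ℚ] Qb) (α : Qb) q
      have h6 : ((σ ^ (p ^ n) : GQ) : Qb →ₐ[ℚ] Qb) (α : Qb) = α := hn n le_rfl
      rw [h6] at h5
      exact h5.symm
    rw [h3, map_div₀, h4, h4]
  have h2 : σ ^ (p ^ n) ∈ (C : Set GQ) * (R.fixingSubgroup : Set GQ) := by
    rw [← normal_mul C R.fixingSubgroup]
    exact h1
  obtain ⟨c, hc, d, hd, hcd⟩ := h2
  refine ⟨n + 1, ?_⟩
  rw [pow_succ, pow_mul, ← hcd]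
  have h3 : QuotientGroup.mk (s := C) ((c * d) ^ p) = 1 := by
    have h4 : QuotientGroup.mk (s := C) c = 1 := (QuotientGroup.eq_one_iff c).2 hc
    rw [QuotientGroup.mk_pow, QuotientGroup.mk_mul, h4, one_mul, ← QuotientGroup.mk_pow,
      QuotientGroup.eq_one_iff]
    exact hg d hd
  exact (QuotientGroup.eq_one_iff _).1 h3

/-- **The vanishing of `μ` for the field of rational numbers.** -/
theorem mu_Q {c : Loc} (hc : c ≠ Loc.free) {p : ℕ} (hp : p.Prime) {R : IntermediateField ℚ Qb}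
    (hRK : R ≤ Kinf p)
    (hpp : ∀ (σ : GQ), ∀ x ∈ R, ∃ n : ℕ, ∀ k, n ≤ k → (σ ^ (p ^ k)) x = x) : Mu c p R ⊥ := by
  classical
  refine ⟨1, ?_⟩
  rw [bot_sup_eq, ← rankC_field]
  intro W hWD hWc hWf hg
  set D := R.fixingSubgroup with hD
  have hDc : IsClosed (D : Set GQ) := InfiniteGalois.fixingSubgroup_isClosed R
  have hDn : D.Normal := normal_of_le hp hRK
  -- the core
  set W' := W.normalCore with hW'
  have hW'n : W'.Normal := normalCore_normal W
  have hW'W : W' ≤ W := normalCore_le W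
  have hgW' : gens p (fam c p) D ⊆ W' := by
    intro x hx g
    exact hg (gens_conj (fam_conj c p) (fun y hy => hDn.conj_mem y hy g) hx)
  have hW'c : IsClosed (W' : Set GQ) := by
    have h1 : (W' : Set GQ) = ⋂ g : GQ, (fun x => g * x * g⁻¹) ⁻¹' (W : Set GQ) := by
      ext x
      rw [Set.mem_iInter]
      rfl
    rw [h1]
    exact isClosed_iInter fun g =>
      hWc.preimage ((continuous_const.mul continuous_id).mul continuous_const)
  -- a prime above `p`
  obtain ⟨Q, hQ, hpQ, -⟩ := frob_Q hp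
  -- the product of `W'` and the inertia group
  have hprod : W' ⊔ Q.inertia GQ = ⊤ := by
    by_contra hne
    have hIc : IsClosed (Q.inertia GQ : Set GQ) := inertia_closed Q
    have hcl : IsClosed ((W' ⊔ Q.inertia GQ : Subgroup GQ) : Set GQ) := by
      have h1 : ((W' ⊔ Q.inertia GQ : Subgroup GQ) : Set GQ) = (W' : Set GQ) * (Q.inertia GQ : Set GQ) :=
        normal_mul W' (Q.inertia GQ)
      rw [h1]
      exact (hW'c.isCompact.mul hIc.isCompact).isClosed
    obtain ⟨O, hJO, hOo, hOt⟩ := exists_open_above hcl hne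
    have hWO : W' ≤ O.normalCore := by
      intro x hx g
      exact hJO (mem_sup_left (hW'n.conj_mem x hx g))
    have hCo : IsOpen (O.normalCore : Set GQ) := by
      have hfin0 : Finite (GQ ⧸ O) := O.quotient_finite_of_isOpen hOo
      exact isOpen_normalCore hOo O.index_ne_zero_of_finite
    obtain ⟨M, hMn, hOM, hMt⟩ := exists_normal_above hp hOo hOt
      (pow_mem_core hpp (normalCore_normal O) hCo
        (fun d hd => hWO (hgW' (Or.inl (Or.inl ⟨d, hd, rfl⟩)))))
    apply hMt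
    refine minkowski M hMn (isOpen_mono hOM hOo) ?_
    intro P hP τ hτ
    by_cases hpP : (p : OQ) ∈ P
    · obtain ⟨g, hg⟩ := trans_Q hp hP hQ hpP hpQ
      have h1 : g⁻¹ * τ * g ∈ Q.inertia GQ := by
        intro x
        have h2 := (hg _).1 (hτ (g • x))
        rw [smul_sub, inv_smul_smul, smul_smul, smul_smul] at h2
        exact h2
      have h2 := hMn.conj_mem _ (hOM (hJO (mem_sup_right h1))) g
      have h3 : g * (g⁻¹ * τ * g) * g⁻¹ = τ := by group
      rwa [h3] at h2
    · have h1 : τ ∈ D := fixingSubgroup_le hRK (inertia_away hp hP hpP hτ)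
      exact hOM (hJO (mem_sup_left (hgW' (Or.inr ⟨h1, P, inertia_le_fam hc p hP hτ⟩))))
  -- modular law
  have hDW : D ≤ W := by
    intro d hd
    have h1 : d ∈ (W' : Set GQ) * (Q.inertia GQ : Set GQ) := by
      rw [← normal_mul W' (Q.inertia GQ), hprod]
      exact mem_top d
    obtain ⟨w, hw, i, hi, rfl⟩ := h1
    have h2 : i ∈ D := by
      have h3 : w⁻¹ * (w * i) ∈ D := D.mul_mem (D.inv_mem (hWD (hW'W hw))) hd
      rwa [inv_mul_cancel_left] at h3
    exact W.mul_mem (hW'W hw) (hW'W (hgW' (Or.inr ⟨h2, Q, inertia_le_fam hc p hQ hi⟩)))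
  rw [le_antisymm hWD hDW, relIndex_self]

end Pool.Agent.K1H37.MU
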