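import Pool.Agent.K1H37.MU.Layer
import Pool.Agent.Y142.ZlExt

/-!
# The field of rational numbers: extensions unramified outside `p`
-/

set_option autoImplicit false

namespace Pool.Agent.K1H37.MU

open NumberField IntermediateField Pool.Agent.Q60.MU Subgroup
open scoped Pointwise commutatorElement

/-- a nontrivial finite `p`-group maps onto `ℤ / p`, killing a given proper subgroup -/
theorem exists_hom_zmod {p : ℕ} [Fact p.Prime] {Q : Type} [Group Q] [Finite Q] (hQ : IsPGroup p Q)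
    (H : Subgroup Q) (hH : H ≠ ⊤) :
    ∃ f : Q →* Multiplicative (ZMod p), (∀ x ∈ H, f x = 1) ∧ ∃ x, f x ≠ 1 := by
  classical
  have hnil : Group.IsNilpotent Q := hQ.isNilpotent
  obtain ⟨M, hM, hHM⟩ := (eq_top_or_exists_le_coatom H).resolve_left hH
  have hMn : M.Normal :=
    NormalizerCondition.normal_of_coatom M Group.normalizerCondition_of_isNilpotent hM
  have hnt : Nontrivial (Q ⧸ M) := by
    obtain ⟨x, hx⟩ : ∃ x, x ∉ M := by
      by_contra h
      push Not at h
      exact hM.1 (eq_top_iff.2 fun x _ => h x)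
    exact ⟨QuotientGroup.mk x, 1, fun h => hx ((QuotientGroup.eq_one_iff x).1 h)⟩
  have hpq : IsPGroup p (Q ⧸ M) := hQ.to_quotient M
  have hp0 : p ∣ Nat.card (Q ⧸ M) := by
    obtain ⟨k, hk⟩ := (IsPGroup.iff_card).1 hpq
    have h1 : k ≠ 0 := by
      rintro rfl
      rw [pow_zero] at hk
      have h2 : 1 < Nat.card (Q ⧸ M) := Finite.one_lt_card
      omega
    rw [hk]
    exact dvd_pow_self p h1
  obtain ⟨x, hx⟩ := exists_prime_orderOf_dvd_card' p hp0
  have htop : (zpowers x).comap (QuotientGroup.mk' M) = ⊤ := by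
    refine hM.2 _ ?_
    rw [lt_iff_le_and_ne]
    have hle : M ≤ (zpowers x).comap (QuotientGroup.mk' M) := by
      intro y hy
      rw [mem_comap]
      have h1 : QuotientGroup.mk' M y = 1 := (QuotientGroup.eq_one_iff y).2 hy
      rw [h1]
      exact Subgroup.one_mem _
    refine ⟨hle, fun h => ?_⟩
    obtain ⟨y, rfl⟩ := QuotientGroup.mk'_surjective M x
    have h1 : y ∈ (zpowers (QuotientGroup.mk' M y)).comap (QuotientGroup.mk' M) :=
      mem_zpowers (QuotientGroup.mk' M y)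
    rw [← h] at h1
    have h2 : QuotientGroup.mk' M y = 1 := (QuotientGroup.eq_one_iff y).2 h1
    rw [h2, orderOf_one] at hx
    exact (Fact.out : p.Prime).one_lt.ne hx
  have hzt : zpowers x = ⊤ := by
    rw [eq_top_iff]
    intro y _
    obtain ⟨z, rfl⟩ := QuotientGroup.mk'_surjective M y
    have h1 : z ∈ (zpowers x).comap (QuotientGroup.mk' M) := by
      rw [htop]
      exact mem_top z
    exact h1
  have hcard : Nat.card (Q ⧸ M) = p := by
    rw [← card_top (G := Q ⧸ M), ← hzt, Nat.card_zpowers, hx]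
  have hcard' : Nat.card (Multiplicative (ZMod p)) = p := Nat.card_zmod p
  let e : (Q ⧸ M) ≃* Multiplicative (ZMod p) := mulEquivOfPrimeCardEq hcard hcard'
  refine ⟨e.toMonoidHom.comp (QuotientGroup.mk' M), fun y hy => ?_, ?_⟩
  · show e (QuotientGroup.mk' M y) = 1
    have h1 : QuotientGroup.mk' M y = 1 := (QuotientGroup.eq_one_iff y).2 (hHM hy)
    rw [h1, map_one]
  · obtain ⟨y, hy⟩ := exists_ne (1 : Q ⧸ M)
    obtain ⟨z, rfl⟩ := QuotientGroup.mk'_surjective M y
    exact ⟨z, fun h => hy ((map_eq_one_iff e e.injective).1 h)⟩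

/-- a character of order `p` which is trivial on a proper open subgroup with pro-`p` quotient -/
theorem exists_char {p : ℕ} [Fact p.Prime] {O : Subgroup GQ}
    (hOo : IsOpen (O : Set GQ)) (hOt : O ≠ ⊤)
    (hpp : ∀ σ : GQ, ∃ n : ℕ, σ ^ (p ^ n) ∈ O.normalCore) :
    ∃ f : GQ →* Multiplicative (ZMod p), IsOpen (f.ker : Set GQ) ∧ O ≤ f.ker ∧ ∃ g, f g ≠ 1 := by
  classical
  have hfin0 : Finite (GQ ⧸ O) := O.quotient_finite_of_isOpen hOo
  have hOf : O.FiniteIndex := ⟨O.index_ne_zero_of_finite⟩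
  have hcf : O.normalCore.FiniteIndex := O.finiteIndex_normalCore
  have hfin : Finite (GQ ⧸ O.normalCore) := inferInstance
  have hpg : IsPGroup p (GQ ⧸ O.normalCore) := by
    intro g
    obtain ⟨σ, rfl⟩ := QuotientGroup.mk_surjective g
    obtain ⟨n, hn⟩ := hpp σ
    refine ⟨n, ?_⟩
    rw [← QuotientGroup.mk_pow, QuotientGroup.eq_one_iff]
    exact hn
  have hcm : (O.map (QuotientGroup.mk' O.normalCore)).comap (QuotientGroup.mk' O.normalCore) = O := by
    refine comap_map_eq_self ?_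
    rw [QuotientGroup.ker_mk']
    exact normalCore_le O
  have hne : O.map (QuotientGroup.mk' O.normalCore) ≠ ⊤ := by
    intro h
    apply hOt
    have h1 := hcm
    rw [h, comap_top] at h1
    exact h1.symm
  obtain ⟨f, hf1, y, hy⟩ := exists_hom_zmod hpg _ hne
  have hle : O ≤ (f.comp (QuotientGroup.mk' O.normalCore)).ker := by
    intro x hx
    exact hf1 _ ⟨x, hx, rfl⟩
  refine ⟨f.comp (QuotientGroup.mk' O.normalCore), Subgroup.isOpen_mono hle hOo, hle, ?_⟩
  obtain ⟨z, rfl⟩ := QuotientGroup.mk'_surjective O.normalCore y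
  exact ⟨z, hy⟩

/-- Characters of order `p` unramified outside `p` are proportional. -/
theorem kw_Q {p : ℕ} [Fact p.Prime] (h2 : p ≠ 2) {f l : GQ →* Multiplicative (ZMod p)}
    (hf : IsOpen (f.ker : Set GQ)) (hl : IsOpen (l.ker : Set GQ))
    (hfu : ∀ q : ℕ, q.Prime → q ≠ p → ∀ P : Ideal OQ, P.IsMaximal → (q : OQ) ∈ P →
      ∀ τ : GQ, (∀ x : OQ, τ • x - x ∈ P) → f τ = 1)
    (hlu : ∀ q : ℕ, q.Prime → q ≠ p → ∀ P : Ideal OQ, P.IsMaximal → (q : OQ) ∈ P →
      ∀ τ : GQ, (∀ x : OQ, τ • x - x ∈ P) → l τ = 1)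
    (hl1 : ∃ g, l g ≠ 1) :
    ∃ c : ZMod p, ∀ g, Multiplicative.toAdd (f g) = c * Multiplicative.toAdd (l g) :=
  Pool.Agent.Y142.kw_mod h2 hf hl hfu hlu hl1

theorem two_primes {p q : ℕ} (hp : p.Prime) (hq : q.Prime) (hne : q ≠ p) {P : Ideal OQ}
    (hP : P.IsMaximal) (hqP : (q : OQ) ∈ P) : (p : OQ) ∉ P := by
  intro h
  have h1 : IsCoprime (q : ℤ) (p : ℤ) := by
    rw [Nat.isCoprime_iff_coprime]
    exact (Nat.coprime_primes hq hp).2 hne
  obtain ⟨a, b, hab⟩ := h1
  apply hP.ne_top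
  rw [Ideal.eq_top_iff_one]
  have h2 := congrArg (Int.cast : ℤ → OQ) hab
  push_cast at h2
  rw [← h2]
  exact P.add_mem (P.mul_mem_left _ hqP) (P.mul_mem_left _ h)

/-- the character of the first layer -/
theorem exists_l {p : ℕ} [Fact p.Prime] (h2 : p ≠ 2) : ∃ l : GQ →* Multiplicative (ZMod p),
    IsOpen (l.ker : Set GQ) ∧ (Kinf p).fixingSubgroup ≤ l.ker ∧ ∃ g, l g ≠ 1 := by
  classical
  have hp : p.Prime := Fact.out
  obtain ⟨E, hE, hEf, -⟩ := exists_layer hp h2 1
  rw [pow_one] at hEf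
  have hfd : FiniteDimensional ℚ E := FiniteDimensional.of_finrank_pos (by rw [hEf]; exact hp.pos)
  have hn : E.fixingSubgroup.Normal := normal_of_le hp hE
  have hcard : Nat.card (GQ ⧸ E.fixingSubgroup) = p := by
    have h1 : E.fixingSubgroup.index = p := by rw [← finrank_eq_fixingSubgroup_index, hEf]
    exact h1
  have hcard' : Nat.card (Multiplicative (ZMod p)) = p := Nat.card_zmod p
  let e : (GQ ⧸ E.fixingSubgroup) ≃* Multiplicative (ZMod p) := mulEquivOfPrimeCardEq hcard hcard'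
  have hle : E.fixingSubgroup ≤ (e.toMonoidHom.comp (QuotientGroup.mk' E.fixingSubgroup)).ker := by
    intro y hy
    show e (QuotientGroup.mk' E.fixingSubgroup y) = 1
    have h1 : QuotientGroup.mk' E.fixingSubgroup y = 1 := (QuotientGroup.eq_one_iff y).2 hy
    rw [h1, map_one]
  refine ⟨e.toMonoidHom.comp (QuotientGroup.mk' E.fixingSubgroup),
    Subgroup.isOpen_mono hle E.fixingSubgroup_isOpen, (fixingSubgroup_le hE).trans hle, ?_⟩
  have hnt : Nontrivial (GQ ⧸ E.fixingSubgroup) := by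
    have hfin : Finite (GQ ⧸ E.fixingSubgroup) := Nat.finite_of_card_ne_zero (by
      rw [hcard]
      exact hp.ne_zero)
    rw [← Finite.one_lt_card_iff_nontrivial, hcard]
    exact hp.one_lt
  obtain ⟨y, hy⟩ := exists_ne (1 : GQ ⧸ E.fixingSubgroup)
  obtain ⟨z, rfl⟩ := QuotientGroup.mk'_surjective E.fixingSubgroup y
  exact ⟨z, fun h => hy ((map_eq_one_iff e e.injective).1 h)⟩

/-- **The vanishing of `μ` for `ℚ`, unramified outside `p`.** -/
theorem mu_Q_free {p : ℕ} [Fact p.Prime] (h2 : p ≠ 2) : Mu Loc.free p (Qcyc p) ⊥ := by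
  classical
  have hp : p.Prime := Fact.out
  set R := Qcyc p with hR
  have hRK : R ≤ Kinf p := Qcyc_le p
  have hpp : ∀ (σ : GQ), ∀ x ∈ R, ∃ n : ℕ, ∀ k, n ≤ k → (σ ^ (p ^ k)) x = x :=
    fun σ _ hx => Qcyc_pro hp σ hx
  refine ⟨1, ?_⟩
  rw [bot_sup_eq, ← rankC_field]
  intro W hWD hWc hWf hg
  set D := R.fixingSubgroup with hD
  have hDc : IsClosed (D : Set GQ) := InfiniteGalois.fixingSubgroup_isClosed R
  have hDn : D.Normal := normal_of_le hp hRK
  set W' := W.normalCore with hW'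
  have hW'n : W'.Normal := normalCore_normal W
  have hW'W : W' ≤ W := normalCore_le W
  have hgW' : gens p (fam Loc.free p) D ⊆ W' := by
    intro x hx g
    exact hg (gens_conj (fam_conj Loc.free p) (fun y hy => hDn.conj_mem y hy g) hx)
  have hW'c : IsClosed (W' : Set GQ) := by
    have h1 : (W' : Set GQ) = ⋂ g : GQ, (fun x => g * x * g⁻¹) ⁻¹' (W : Set GQ) := by
      ext x
      rw [Set.mem_iInter]
      rfl
    rw [h1]
    exact isClosed_iInter fun g =>
      hWc.preimage ((continuous_const.mul continuous_id).mul continuous_const)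
  -- inertia away from `p`
  have hin : ∀ q : ℕ, q.Prime → q ≠ p → ∀ P : Ideal OQ, P.IsMaximal → (q : OQ) ∈ P →
      ∀ τ : GQ, (∀ x : OQ, τ • x - x ∈ P) → τ ∈ W' := by
    intro q hq hqp P hP hqP τ hτ
    have hpP := two_primes hp hq hqp hP hqP
    have h1 : τ ∈ D := fixingSubgroup_le hRK (inertia_away hp hP hpP hτ)
    refine hgW' (Or.inr ⟨h1, P, ?_⟩)
    rw [fam_away hP hpP]
    exact hτ
  obtain ⟨l, hlo, hlK, c₀, hc₀⟩ := exists_l h2
  -- `W'` and `c₀` generate
  have hgen : ∀ O : Subgroup GQ, W' ≤ O → c₀ ∈ O → IsOpen (O : Set GQ) → O = ⊤ := by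
    intro O hWO hcO hOo
    by_contra hOt
    have hWO' : W' ≤ O.normalCore := fun x hx g => hWO (hW'n.conj_mem x hx g)
    have hCo : IsOpen (O.normalCore : Set GQ) := by
      have hfin0 : Finite (GQ ⧸ O) := O.quotient_finite_of_isOpen hOo
      exact isOpen_normalCore hOo O.index_ne_zero_of_finite
    obtain ⟨f, hfo, hfO, g, hg⟩ := exists_char hOo hOt
      (pow_mem_core hpp (normalCore_normal O) hCo
        (fun d hd => hWO' (hgW' (Or.inl (Or.inl ⟨d, hd, rfl⟩)))))
    obtain ⟨c, hc⟩ := kw_Q h2 hfo hlo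
      (fun q hq hqp P hP hqP τ hτ => hfO (hWO (hin q hq hqp P hP hqP τ hτ)))
      (fun q hq hqp P hP hqP τ hτ => hlK (inertia_away hp hP (two_primes hp hq hqp hP hqP) hτ))
      ⟨c₀, hc₀⟩
    have h3 := hc c₀
    have h4 : f c₀ = 1 := hfO hcO
    rw [h4, toAdd_one] at h3
    have h5 : Multiplicative.toAdd (l c₀) ≠ 0 := fun h => hc₀ (Multiplicative.toAdd.injective h)
    have h6 := (mul_eq_zero.1 h3.symm).resolve_right h5
    apply hg
    apply Multiplicative.toAdd.injective
    rw [hc g, h6, zero_mul, toAdd_one]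
  -- finite quotients are cyclic
  have hcyc : ∀ O : Subgroup GQ, O.Normal → W' ≤ O → IsOpen (O : Set GQ) → ∀ g : GQ,
      ∃ k : ℤ, g⁻¹ * c₀ ^ k ∈ O := by
    intro O hOn hWO hOo g
    have h1 : O ⊔ zpowers c₀ = ⊤ := hgen _ (hWO.trans le_sup_left)
      (mem_sup_right (mem_zpowers c₀)) (Subgroup.isOpen_mono le_sup_left hOo)
    have h3 : g ∈ (zpowers c₀ : Set GQ) * (O : Set GQ) := by
      rw [← mul_normal (zpowers c₀) O, sup_comm, h1]
      exact mem_top g
    obtain ⟨_, ⟨k, rfl⟩, o, ho, rfl⟩ := h3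
    refine ⟨k, ?_⟩
    have h4 : (c₀ ^ k * o)⁻¹ * c₀ ^ k = o⁻¹ := by group
    show (c₀ ^ k * o)⁻¹ * c₀ ^ k ∈ O
    rw [h4]
    exact O.inv_mem ho
  -- `D ≤ O` for every open normal subgroup `O` containing `W'`
  have hDO : ∀ O : Subgroup GQ, O.Normal → W' ≤ O → IsOpen (O : Set GQ) → D ≤ O := by
    intro O hOn hWO hOo d hd
    have hfin0 : Finite (GQ ⧸ O) := O.quotient_finite_of_isOpen hOo
    obtain ⟨a, ha⟩ : ∃ a, c₀ ^ (p ^ a) ∈ O := pow_mem_core hpp hOn hOo
      (fun d hd => hWO (hgW' (Or.inl (Or.inl ⟨d, hd, rfl⟩)))) c₀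
    obtain ⟨E, hE, hEf⟩ := exists_layer_Qcyc hp h2 (a + 1)
    have hfd : FiniteDimensional ℚ E :=
      FiniteDimensional.of_finrank_pos (by rw [hEf]; exact pow_pos hp.pos _)
    have hEn : E.fixingSubgroup.Normal := normal_of_le hp (hE.trans hRK)
    have hEo : IsOpen (E.fixingSubgroup : Set GQ) := E.fixingSubgroup_isOpen
    have hDE : D ≤ E.fixingSubgroup := fixingSubgroup_le hE
    obtain ⟨k, hk⟩ := hcyc (O ⊓ E.fixingSubgroup) (Subgroup.normal_inf_normal O E.fixingSubgroup)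
      (le_inf hWO (((hW'W.trans hWD)).trans hDE)) (by
        rw [Subgroup.coe_inf]
        exact hOo.inter hEo) d
    have h3 : c₀ ^ k ∈ E.fixingSubgroup := by
      have h4 := E.fixingSubgroup.mul_mem (hDE hd) hk.2
      rwa [mul_inv_cancel_left] at h4
    -- the order of `c₀` in the Galois group of `E` is `p ^ (a + 1)`
    have hfinE : Finite (GQ ⧸ E.fixingSubgroup) := quotient_finite_of_isOpen _ hEo
    have hord : orderOf (QuotientGroup.mk (s := E.fixingSubgroup) c₀) = p ^ (a + 1) := by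
      have hcardE : Nat.card (GQ ⧸ E.fixingSubgroup) = p ^ (a + 1) := by
        have h5 : E.fixingSubgroup.index = p ^ (a + 1) := by
          rw [← finrank_eq_fixingSubgroup_index, hEf]
        exact h5
      rw [← hcardE, ← Nat.card_zpowers]
      have h6 : zpowers (QuotientGroup.mk (s := E.fixingSubgroup) c₀) = ⊤ := by
        rw [eq_top_iff]
        intro y _
        obtain ⟨g, rfl⟩ := QuotientGroup.mk_surjective y
        obtain ⟨m, hm⟩ := hcyc E.fixingSubgroup hEn ((hW'W.trans hWD).trans hDE) hEo g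
        refine ⟨m, ?_⟩
        show (QuotientGroup.mk (s := E.fixingSubgroup) c₀) ^ m = QuotientGroup.mk g
        rw [← QuotientGroup.mk_zpow]
        exact (QuotientGroup.eq.2 hm).symm
      rw [h6, card_top]
    have h4 : ((p ^ (a + 1) : ℕ) : ℤ) ∣ k := by
      rw [← hord]
      apply orderOf_dvd_iff_zpow_eq_one.2
      rw [← QuotientGroup.mk_zpow]
      exact (QuotientGroup.eq_one_iff _).2 h3
    have h5 : c₀ ^ k ∈ O := by
      obtain ⟨m, rfl⟩ := h4
      rw [zpow_mul, zpow_natCast, pow_succ, pow_mul]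
      exact O.zpow_mem (O.pow_mem ha p) m
    have h6 := hk.1
    have h7 : d = c₀ ^ k * (d⁻¹ * c₀ ^ k)⁻¹ := by group
    rw [h7]
    exact O.mul_mem h5 (O.inv_mem h6)
  -- `D ≤ W'`
  have hfixW : (fixedField W').fixingSubgroup = W' :=
    InfiniteGalois.fixingSubgroup_fixedField ⟨W', hW'c⟩
  have hDW' : D ≤ W' := by
    intro d hd
    rw [← hfixW, IntermediateField.mem_fixingSubgroup_iff]
    intro x hx
    have hfd : FiniteDimensional ℚ (adjoin ℚ {x}) :=
      adjoin.finiteDimensional (Algebra.IsIntegral.isIntegral x)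
    set U := (adjoin ℚ {x}).fixingSubgroup with hU
    have hUo : IsOpen (U : Set GQ) := fixingSubgroup_isOpen _
    have hWU : W' ≤ U := by
      rw [← hfixW]
      exact fixingSubgroup_le (adjoin_le_iff.2 (Set.singleton_subset_iff.2 hx))
    have hfin0 : Finite (GQ ⧸ U) := U.quotient_finite_of_isOpen hUo
    have h1 := hDO U.normalCore (normalCore_normal U)
      (fun x hx g => hWU (hW'n.conj_mem x hx g))
      (isOpen_normalCore hUo U.index_ne_zero_of_finite) hd
    exact (IntermediateField.mem_fixingSubgroup_iff _ _).1 (normalCore_le U h1) x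
      (mem_adjoin_simple_self ℚ x)
  rw [le_antisymm hWD (hDW'.trans hW'W), relIndex_self]

end Pool.Agent.K1H37.MU
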