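import Pool.Agent.K1H37.MU.RatFree

/-!
# The vanishing of the Iwasawa `μ`-invariants: statements in terms of fields
-/

set_option autoImplicit false

namespace Pool.Agent.K1H37.MU

open NumberField IntermediateField Pool.Agent.Q60.MU Subgroup
open scoped Pointwise commutatorElement

/-- `M / L` is unramified at all finite primes and split completely at the primes above `p`: the
elements of the Galois group of `L` which lie in the inertia group of a maximal ideal `P` of the
ring of all algebraic integers, or in the decomposition group of `P` if `p ∈ P`, act trivially. -/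
def UnrSplit (p : ℕ) (L M : IntermediateField ℚ Qb) : Prop :=
  ∀ P : Ideal (𝓞 Qb), P.IsMaximal → ∀ σ ∈ L.fixingSubgroup,
    ((∀ a : 𝓞 Qb, σ • a - a ∈ P) ∨ ((p : 𝓞 Qb) ∈ P ∧ σ • P = P)) → ∀ x ∈ M, σ x = x

/-- `M / L` is unramified at the primes which do not lie above `p`. -/
def UnrAway (p : ℕ) (L M : IntermediateField ℚ Qb) : Prop :=
  ∀ P : Ideal (𝓞 Qb), P.IsMaximal → (p : 𝓞 Qb) ∉ P → ∀ σ ∈ L.fixingSubgroup,
    (∀ a : 𝓞 Qb, σ • a - a ∈ P) → ∀ x ∈ M, σ x = x

/-- `M / L` is unramified at the infinite primes: the complex conjugations which fix `L` fix `M`. -/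
def UnrInf (L M : IntermediateField ℚ Qb) : Prop :=
  ∀ φ σ, IsConj φ σ → σ ∈ L.fixingSubgroup → ∀ x ∈ M, σ x = x

/-- The finite abelian extensions of exponent `p` of the cyclotomic `ℤ_p`-extension of `F` which
are unramified at the finite primes and completely split above `p` have bounded degrees. -/
def MuZero (p : ℕ) (F : IntermediateField ℚ Qb) : Prop :=
  ∃ C, ∀ M, ElemAb p (F ⊔ Qcyc p) M → UnrSplit p (F ⊔ Qcyc p) M →
    (F ⊔ Qcyc p).relfinrank M ≤ C

/-- The same for the extensions which are moreover unramified at the infinite primes. -/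
def MuZeroAll (p : ℕ) (F : IntermediateField ℚ Qb) : Prop :=
  ∃ C, ∀ M, ElemAb p (F ⊔ Qcyc p) M → UnrSplit p (F ⊔ Qcyc p) M → UnrInf (F ⊔ Qcyc p) M →
    (F ⊔ Qcyc p).relfinrank M ≤ C

/-- The finite abelian extensions of exponent `p` of the cyclotomic `ℤ_p`-extension of `F` which
are unramified at the primes which do not lie above `p` have bounded degrees. -/
def MuZeroOut (p : ℕ) (F : IntermediateField ℚ Qb) : Prop :=
  ∃ C, ∀ M, ElemAb p (F ⊔ Qcyc p) M → UnrAway p (F ⊔ Qcyc p) M →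
    (F ⊔ Qcyc p).relfinrank M ≤ C

/-- The representation is trivial on the absolute Galois group of a number field. -/
def FiniteImage {p : ℕ} {S : Type} [AddCommGroup S] [Module (ZMod p) S]
    (τ : Representation (ZMod p) Gal(Qb/ℚ) S) : Prop :=
  ∃ N : IntermediateField ℚ Qb, FiniteDimensional ℚ N ∧ ∀ g ∈ N.fixingSubgroup, ∀ x, τ g x = x

theorem unrSplit_iff {p : ℕ} {L M : IntermediateField ℚ Qb} : UnrSplit p L M ↔
    ∀ P, ∀ σ ∈ fam Loc.split p P, σ ∈ L.fixingSubgroup → ∀ x ∈ M, σ x = x := by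
  classical
  constructor
  · intro h P σ hσ hσL x hx
    by_cases hP : P.IsMaximal
    · by_cases hp : (p : OQ) ∈ P
      · unfold fam at hσ
        rw [if_pos hP, if_pos hp] at hσ
        exact h P hP σ hσL (Or.inr ⟨hp, hσ⟩) x hx
      · rw [fam_away hP hp] at hσ
        exact h P hP σ hσL (Or.inl hσ) x hx
    · rw [fam_not hP] at hσ
      have h1 : σ = 1 := hσ
      rw [h1]
      rfl
  · intro h P hP σ hσ hor x hx
    refine h P σ ?_ hσ x hx
    rcases hor with h1 | ⟨hp, h1⟩
    · exact inertia_le_fam (by decide) p hP h1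
    · unfold fam
      rw [if_pos hP, if_pos hp]
      exact h1

theorem unrAway_iff {p : ℕ} {L M : IntermediateField ℚ Qb} : UnrAway p L M ↔
    ∀ P, ∀ σ ∈ fam Loc.free p P, σ ∈ L.fixingSubgroup → ∀ x ∈ M, σ x = x := by
  classical
  constructor
  · intro h P σ hσ hσL x hx
    by_cases hP : P.IsMaximal
    · by_cases hp : (p : OQ) ∈ P
      · unfold fam at hσ
        rw [if_pos hP, if_pos hp] at hσ
        have h1 : σ = 1 := hσ
        rw [h1]
        rfl
      · rw [fam_away hP hp] at hσ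
        exact h P hP hp σ hσL hσ x hx
    · rw [fam_not hP] at hσ
      have h1 : σ = 1 := hσ
      rw [h1]
      rfl
  · intro h P hP hp σ hσ h1 x hx
    refine h P σ ?_ hσ x hx
    rw [fam_away hP hp]
    exact h1

theorem muZero_iff {p : ℕ} {F : IntermediateField ℚ Qb} :
    MuZero p F ↔ Mu Loc.split p (Qcyc p) F := by
  unfold MuZero Mu Bdd
  simp only [unrSplit_iff]

theorem muZeroOut_iff {p : ℕ} {F : IntermediateField ℚ Qb} :
    MuZeroOut p F ↔ Mu Loc.free p (Qcyc p) F := by
  unfold MuZeroOut Mu Bdd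
  simp only [unrAway_iff]

theorem muZeroAll_of {p : ℕ} {F : IntermediateField ℚ Qb} (h : MuZero p F) : MuZeroAll p F := by
  obtain ⟨C, hC⟩ := h
  exact ⟨C, fun M h1 h2 _ => hC M h1 h2⟩

theorem exists_I : ∃ i : Qb, i ^ 2 = -1 := by
  have h1 : IsAlgClosed Qb := AlgebraicClosure.isAlgClosed ℚ
  obtain ⟨i, hi⟩ := IsAlgClosed.exists_pow_nat_eq (-1 : Qb) (n := 2) (by norm_num)
  exact ⟨i, hi⟩

theorem muZero_of_all {p : ℕ} (h : ∀ F : IntermediateField ℚ Qb, FiniteDimensional ℚ F →
    MuZeroAll p F) (F : IntermediateField ℚ Qb) (hF : FiniteDimensional ℚ F) : MuZero p F := by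
  obtain ⟨i, hi⟩ := exists_I
  have hfd : FiniteDimensional ℚ (adjoin ℚ {i}) :=
    adjoin.finiteDimensional (Algebra.IsIntegral.isIntegral i)
  have hfd' : FiniteDimensional ℚ (F ⊔ adjoin ℚ {i} : IntermediateField ℚ Qb) :=
    IntermediateField.finiteDimensional_sup F (adjoin ℚ {i})
  obtain ⟨C, hC⟩ := h (F ⊔ adjoin ℚ {i}) hfd'
  have h1 : MuZero p (F ⊔ adjoin ℚ {i}) := by
    refine ⟨C, fun M hM hu => hC M hM hu ?_⟩
    intro φ σ hσ hσL
    exfalso
    have h2 : i ∈ (F ⊔ adjoin ℚ {i}) ⊔ Qcyc p :=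
      (le_sup_right.trans le_sup_left : adjoin ℚ {i} ≤ _) (mem_adjoin_simple_self ℚ i)
    have h3 := (IntermediateField.mem_fixingSubgroup_iff _ _).1 hσL i h2
    have h4 := hσ i
    rw [h3] at h4
    have h5 : (φ i) ^ 2 = -1 := by rw [← map_pow, hi, map_neg, map_one]
    have h6 : (φ i).im = 0 := by
      have h7 := congrArg Complex.im h4
      rw [Complex.conj_im] at h7
      linarith
    have h7 := congrArg Complex.re h5
    rw [pow_two, Complex.mul_re, h6, Complex.neg_re, Complex.one_re] at h7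
    nlinarith [sq_nonneg (φ i).re]
  rw [muZero_iff] at h1 ⊢
  exact Mu.of_le le_sup_left hfd' h1

theorem fixedField_stab_finite {p : ℕ} {S : Type} [AddCommGroup S] [Module (ZMod p) S]
    [Fact p.Prime] {τ : Representation (ZMod p) Gal(Qb/ℚ) S} (h : FiniteImage τ) (v : S) :
    FiniteDimensional ℚ (fixedField (stab τ v)) ∧
      (fixedField (stab τ v)).fixingSubgroup = stab τ v := by
  obtain ⟨N, hN, hτ⟩ := h
  have hle : N.fixingSubgroup ≤ stab τ v := fun g hg => hτ g hg v
  have h2 : fixedField (stab τ v) ≤ N := by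
    rw [← InfiniteGalois.fixedField_fixingSubgroup N]
    exact fixedField_antitone hle
  exact ⟨finite_of_le h2 hN, fix_fixed (Subgroup.isOpen_mono hle N.fixingSubgroup_isOpen)⟩

theorem stab_top {p : ℕ} [Fact p.Prime] {S : Type} [AddCommGroup S] [Module (ZMod p) S]
    {τ : Representation (ZMod p) Gal(Qb/ℚ) S} (h : ∀ g x, τ g x = x) (v : S) :
    fixedField (stab τ v) = ⊥ := by
  have h1 : stab τ v = ⊤ := eq_top_iff.2 fun g _ => h g v
  rw [h1]
  have h2 := InfiniteGalois.fixedField_fixingSubgroup (⊥ : IntermediateField ℚ Qb)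
  rw [fixingSubgroup_bot] at h2
  exact h2

theorem core_finite {F : IntermediateField ℚ Qb} (hF : FiniteDimensional ℚ F) {p : ℕ} {S : Type}
    [AddCommGroup S] [Module (ZMod p) S] {τ : Representation (ZMod p) Gal(Qb/ℚ) S}
    (h : ∀ g ∈ F.fixingSubgroup.normalCore, ∀ x, τ g x = x) : FiniteImage τ := by
  have hUf : F.fixingSubgroup.FiniteIndex := ⟨index_ne_zero' F⟩
  have hKo : IsOpen (F.fixingSubgroup.normalCore : Set Gal(Qb/ℚ)) :=
    isOpen_normalCore F.fixingSubgroup_isOpen (index_ne_zero' F)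
  have hKf : F.fixingSubgroup.normalCore.index ≠ 0 := by
    have : F.fixingSubgroup.normalCore.FiniteIndex := F.fixingSubgroup.finiteIndex_normalCore
    exact FiniteIndex.index_ne_zero
  exact ⟨fixedField F.fixingSubgroup.normalCore, finite_fixed hKo hKf, by
    rw [fix_fixed hKo]
    exact h⟩

theorem main_split (p : ℕ) [Fact p.Prime] :
    (∀ F : IntermediateField ℚ Qb, FiniteDimensional ℚ F → MuZeroAll p F) ↔
    ∀ (S : Type) [AddCommGroup S] [Module (ZMod p) S] [Module.Finite (ZMod p) S]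
      (τ : Representation (ZMod p) Gal(Qb/ℚ) S), FiniteImage τ → IsSimple τ →
      (∃ g x, τ g x ≠ x) → ∃ v : S, v ≠ 0 ∧ MuZero p (fixedField (stab τ v)) := by
  constructor
  · intro h S _ _ _ τ hfi hs _
    have hnt := hs.1
    obtain ⟨v, hv⟩ := exists_ne (0 : S)
    exact ⟨v, hv, muZero_of_all h _ (fixedField_stab_finite hfi v).1⟩
  · intro h F hF
    refine muZeroAll_of (muZero_iff.2 ?_)
    refine vector_fields Loc.split p (Qcyc_le p) hF ?_
    intro S _ _ _ τ hτ hs
    by_cases htriv : ∃ g x, τ g x ≠ x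
    · obtain ⟨v, hv, hmu⟩ := h S τ (core_finite hF hτ) hs htriv
      exact ⟨v, hv, muZero_iff.1 hmu⟩
    · push Not at htriv
      have hnt := hs.1
      obtain ⟨v, hv⟩ := exists_ne (0 : S)
      refine ⟨v, hv, ?_⟩
      rw [stab_top htriv v]
      exact mu_Q' (by decide) Fact.out

theorem main_out (p : ℕ) [Fact p.Prime] (hp : p ≠ 2) :
    (∀ F : IntermediateField ℚ Qb, FiniteDimensional ℚ F → TotReal F → MuZeroOut p F) ↔
    ∀ (S : Type) [AddCommGroup S] [Module (ZMod p) S] [Module.Finite (ZMod p) S]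
      (τ : Representation (ZMod p) Gal(Qb/ℚ) S), FiniteImage τ → IsSimple τ →
      (∃ g x, τ g x ≠ x) → (∀ φ σ, IsConj φ σ → ∀ x, τ σ x = x) →
      ∃ v : S, v ≠ 0 ∧ MuZeroOut p (fixedField (stab τ v)) := by
  constructor
  · intro h S _ _ _ τ hfi hs _ hreal
    have hnt := hs.1
    obtain ⟨v, hv⟩ := exists_ne (0 : S)
    obtain ⟨h1, h2⟩ := fixedField_stab_finite hfi v
    refine ⟨v, hv, h _ h1 ?_⟩
    rw [totReal_iff]
    intro φ σ hσ
    rw [h2]
    exact hreal φ σ hσ v
  · intro h F hF hFr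
    refine muZeroOut_iff.2 ?_
    refine vector_fields Loc.free p (Qcyc_le p) hF ?_
    intro S _ _ _ τ hτ hs
    by_cases htriv : ∃ g x, τ g x ≠ x
    · obtain ⟨v, hv, hmu⟩ := h S τ (core_finite hF hτ) hs htriv (by
        intro φ σ hσ x
        refine hτ σ (fun g => ?_) x
        exact totReal_iff.1 hFr _ _ (hσ.conj g))
      exact ⟨v, hv, muZeroOut_iff.1 hmu⟩
    · push Not at htriv
      have hnt := hs.1
      obtain ⟨v, hv⟩ := exists_ne (0 : S)
      refine ⟨v, hv, ?_⟩
      rw [stab_top htriv v]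
      exact mu_Q_free hp

end Pool.Agent.K1H37.MU
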