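import Pool.Agent.K1H37.MU.Inf
import Pool.Agent.K1H37.MU.Fam

/-!
# Closed subgroups and fields
-/

set_option autoImplicit false

namespace Pool.Agent.K1H37.MU

open NumberField IntermediateField Pool.Agent.Q60.MU Subgroup
open scoped Pointwise commutatorElement

section top

variable {𝔾 : Type} [Group 𝔾] {Ω : Type}

/-- Every closed subgroup of finite index of `K` which contains the `p`-th powers, the commutators
and the elements of the groups in the family has index at most `C`. -/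
def RankC [TopologicalSpace 𝔾] (p : ℕ) (I : Ω → Subgroup 𝔾) (K : Subgroup 𝔾) (C : ℕ) : Prop :=
  ∀ W : Subgroup 𝔾, W ≤ K → IsClosed (W : Set 𝔾) → W.relIndex K ≠ 0 → gens p I K ⊆ W →
    W.relIndex K ≤ C

theorem rankC_iff [TopologicalSpace 𝔾] {H : Type} [Group H] [TopologicalSpace H]
    [IsTopologicalGroup H] [CompactSpace H] (f : H →* 𝔾) (hinj : Function.Injective f)
    (hf : Topology.IsClosedEmbedding f) (p : ℕ) (I : Ω → Subgroup 𝔾) (K : Subgroup H)
    (hK : IsOpen (K : Set H)) (C : ℕ) :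
    RankLe p (fun w => (I w).comap f) K C ↔ RankC p I (K.map f) C := by
  have hKi : K.index ≠ 0 := by
    have : Finite (H ⧸ K) := K.quotient_finite_of_isOpen hK
    exact K.index_ne_zero_of_finite
  constructor
  · intro h W hWK hWc hWf hg
    have h1 : W.comap f ≤ K := by
      intro x hx
      obtain ⟨y, hy, hyx⟩ := hWK hx
      rw [← hinj hyx]
      exact hy
    have hidx : (W.comap f).relIndex K = W.relIndex (K.map f) := relIndex_comap W f K
    have h2 : (W.comap f).index ≠ 0 := by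
      rw [← relIndex_mul_index h1]
      exact mul_ne_zero (by rw [hidx]; exact hWf) hKi
    have h3 : IsOpen (W.comap f : Set H) := by
      have : (W.comap f).FiniteIndex := ⟨h2⟩
      exact isOpen_of_isClosed_of_finiteIndex _ (hWc.preimage hf.continuous)
    rw [← hidx]
    refine h _ h1 h3 (by rw [hidx]; exact hWf) ?_
    rintro x ((⟨a, ha, rfl⟩ | ⟨a, ha, b, hb, rfl⟩) | ⟨hx, w, hw⟩)
    · exact hg (Or.inl (Or.inl ⟨f a, ⟨a, ha, rfl⟩, map_pow _ _ _⟩))
    · exact hg (Or.inl (Or.inr ⟨f a, ⟨a, ha, rfl⟩, f b, ⟨b, hb, rfl⟩, map_commutatorElement _ _ _⟩))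
    · exact hg (Or.inr ⟨⟨x, hx, rfl⟩, w, hw⟩)
  · intro h W hWK hWo hWf hg
    have hidx : (W.map f).relIndex (K.map f) = W.relIndex K :=
      relIndex_map_map_of_injective W K hinj
    rw [← hidx]
    refine h _ (map_mono hWK) ?_ (by rw [hidx]; exact hWf) ?_
    · rw [Subgroup.coe_map]
      exact hf.isClosedMap _ (W.isClosed_of_isOpen hWo)
    · rintro x ((⟨a, ⟨a', ha, rfl⟩, rfl⟩ | ⟨a, ⟨a', ha, rfl⟩, b, ⟨b', hb, rfl⟩, rfl⟩) | ⟨⟨x', hx, rfl⟩, w, hw⟩)
      · exact ⟨a' ^ p, hg (Or.inl (Or.inl ⟨a', ha, rfl⟩)), map_pow _ _ _⟩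
      · exact ⟨⁅a', b'⁆, hg (Or.inl (Or.inr ⟨a', ha, b', hb, rfl⟩)), map_commutatorElement _ _ _⟩
      · exact ⟨x', hg (Or.inr ⟨hx, w, hw⟩), rfl⟩

end top

/-- **The degree of an extension** is the index of the Galois groups. -/
theorem relfinrank_eq {L M : IntermediateField ℚ Qb} (h : L ≤ M) :
    L.relfinrank M = M.fixingSubgroup.relIndex L.fixingSubgroup := by
  have hgal : IsGalois L Qb := IsGalois.tower_top_intermediateField L
  have hLM : L.toSubfield ≤ M.toSubfield := h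
  have h1 : L.relfinrank M = Module.finrank L (extendScalars h) :=
    relfinrank_eq_finrank_of_le h
  rw [h1, finrank_eq_fixingSubgroup_index]
  have h2 : (extendScalars h).fixingSubgroup.comap (fixingSubgroupEquiv L).toMonoidHom =
      M.fixingSubgroup.subgroupOf L.fixingSubgroup := by
    ext σ
    rw [mem_comap, mem_subgroupOf, IntermediateField.mem_fixingSubgroup_iff,
      IntermediateField.mem_fixingSubgroup_iff]
    rfl
  have h3 := index_comap_of_surjective (extendScalars h).fixingSubgroup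
    (f := (fixingSubgroupEquiv L).toMonoidHom) (fixingSubgroupEquiv L).surjective
  rw [← h3, h2]
  rfl

/-- `M` is a finite abelian extension of `L` of exponent `p`. -/
structure ElemAb (p : ℕ) (L M : IntermediateField ℚ Qb) : Prop where
  le : L ≤ M
  finite : L.relfinrank M ≠ 0
  normal : ∀ σ ∈ L.fixingSubgroup, ∀ x ∈ M, σ x ∈ M
  comm : ∀ σ ∈ L.fixingSubgroup, ∀ τ ∈ L.fixingSubgroup, ∀ x ∈ M, σ (τ x) = τ (σ x)
  exp : ∀ σ ∈ L.fixingSubgroup, ∀ x ∈ M, (σ ^ p) x = x

/-- the extensions satisfying the local conditions have bounded degrees -/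
def Bdd (c : Loc) (p : ℕ) (L : IntermediateField ℚ Qb) (C : ℕ) : Prop :=
  ∀ M : IntermediateField ℚ Qb, ElemAb p L M →
    (∀ P, ∀ σ ∈ fam c p P, σ ∈ L.fixingSubgroup → ∀ x ∈ M, σ x = x) → L.relfinrank M ≤ C

theorem rankC_field (c : Loc) (p : ℕ) (L : IntermediateField ℚ Qb) (C : ℕ) :
    RankC p (fam c p) L.fixingSubgroup C ↔ Bdd c p L C := by
  constructor
  · intro h M hM hloc
    have hrf := relfinrank_eq hM.le
    rw [hrf]
    refine h _ (fixingSubgroup_le hM.le) (InfiniteGalois.fixingSubgroup_isClosed M)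
      (by rw [← hrf]; exact hM.finite) ?_
    rintro x ((⟨a, ha, rfl⟩ | ⟨a, ha, b, hb, rfl⟩) | ⟨hx, w, hw⟩)
    · exact (mem_fixingSubgroup_iff _ _).2 fun x hx => hM.exp a ha x hx
    · refine (mem_fixingSubgroup_iff _ _).2 fun x hx => ?_
      have hb' : b⁻¹ x ∈ M := hM.normal _ (inv_mem hb) x hx
      have ha' : a⁻¹ (b⁻¹ x) ∈ M := hM.normal _ (inv_mem ha) _ hb'
      have h6 := hM.comm a ha b hb _ ha'
      show ⁅a, b⁆ x = x
      have h7 : ⁅a, b⁆ x = a (b (a⁻¹ (b⁻¹ x))) := rfl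
      have h8 : a (a⁻¹ (b⁻¹ x)) = b⁻¹ x := by
        rw [← AlgEquiv.mul_apply, mul_inv_cancel, AlgEquiv.one_apply]
      have h9 : b (b⁻¹ x) = x := by
        rw [← AlgEquiv.mul_apply, mul_inv_cancel, AlgEquiv.one_apply]
      rw [h7, h6, h8, h9]
    · exact (mem_fixingSubgroup_iff _ _).2 fun y hy => hloc w x hw hx y hy
  · intro h W hWK hWc hWf hg
    have hfix : (fixedField W).fixingSubgroup = W :=
      InfiniteGalois.fixingSubgroup_fixedField ⟨W, hWc⟩
    have hLM : L ≤ fixedField W := (le_iff_le _ _).2 hWK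
    have hmem : ∀ x, x ∈ fixedField W ↔ ∀ w ∈ W, w x = x := fun x => mem_fixedField_iff _ _
    have hrf := relfinrank_eq hLM
    rw [hfix] at hrf
    rw [← hrf]
    refine h (fixedField W) ⟨hLM, by rw [hrf]; exact hWf, ?_, ?_, ?_⟩ ?_
    · intro σ hσ x hx
      rw [hmem] at hx ⊢
      intro w hw
      have h1 : ⁅σ⁻¹, w⁆ ∈ W := hg (Or.inl (Or.inr ⟨σ⁻¹, inv_mem hσ, w, hWK hw, rfl⟩))
      have h2 : w (σ x) = σ ((⁅σ⁻¹, w⁆ * w) x) := by
        rw [← AlgEquiv.mul_apply, ← AlgEquiv.mul_apply]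
        congr 1
        rw [commutatorElement_def]
        group
      rw [h2, hx _ (W.mul_mem h1 hw)]
    · intro σ hσ τ hτ x hx
      rw [hmem] at hx
      have h1 : ⁅σ⁻¹, τ⁻¹⁆ ∈ W := hg (Or.inl (Or.inr ⟨σ⁻¹, inv_mem hσ, τ⁻¹, inv_mem hτ, rfl⟩))
      have h2 : σ (τ x) = τ (σ (⁅σ⁻¹, τ⁻¹⁆ x)) := by
        rw [← AlgEquiv.mul_apply, ← AlgEquiv.mul_apply, ← AlgEquiv.mul_apply]
        congr 1
        rw [commutatorElement_def]
        group
      rw [h2, hx _ h1]
    · intro σ hσ x hx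
      rw [hmem] at hx
      exact hx _ (hg (Or.inl (Or.inl ⟨σ, hσ, rfl⟩)))
    · intro P σ hσP hσ x hx
      rw [hmem] at hx
      exact hx _ (hg (Or.inr ⟨hσ, P, hσP⟩))

/-- the vanishing of `μ` -/
def Mu (c : Loc) (p : ℕ) (R F : IntermediateField ℚ Qb) : Prop := ∃ C, Bdd c p (F ⊔ R) C

theorem mu_iff' (c : Loc) (p : ℕ) {R k F : IntermediateField ℚ Qb} (hkF : k ≤ F)
    (hF : FiniteDimensional ℚ F) :
    MuD p (fun w => (fam c p w).subgroupOf k.fixingSubgroup)
      (R.fixingSubgroup.subgroupOf k.fixingSubgroup)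
      (F.fixingSubgroup.subgroupOf k.fixingSubgroup) ↔ Mu c p R F := by
  have hk : IsClosed (k.fixingSubgroup : Set GQ) := InfiniteGalois.fixingSubgroup_isClosed k
  have hR : IsClosed (R.fixingSubgroup : Set GQ) := InfiniteGalois.fixingSubgroup_isClosed R
  have hR' : IsClosed (R.fixingSubgroup.subgroupOf k.fixingSubgroup : Set k.fixingSubgroup) :=
    hR.preimage continuous_subtype_val
  have h1 : CompactSpace k.fixingSubgroup := isCompact_iff_compactSpace.1 hk.isCompact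
  have h2 : CompactSpace (R.fixingSubgroup.subgroupOf k.fixingSubgroup) :=
    isCompact_iff_compactSpace.1 hR'.isCompact
  let f : (R.fixingSubgroup.subgroupOf k.fixingSubgroup) →* GQ :=
    k.fixingSubgroup.subtype.comp (R.fixingSubgroup.subgroupOf k.fixingSubgroup).subtype
  have hf : Topology.IsClosedEmbedding f :=
    hk.isClosedEmbedding_subtypeVal.comp hR'.isClosedEmbedding_subtypeVal
  have hmap : ((F.fixingSubgroup.subgroupOf k.fixingSubgroup).subgroupOf
      (R.fixingSubgroup.subgroupOf k.fixingSubgroup)).map f = (F ⊔ R).fixingSubgroup := by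
    rw [fixingSubgroup_sup]
    ext x
    constructor
    · rintro ⟨y, hy, rfl⟩
      exact ⟨hy, y.2⟩
    · rintro ⟨hx, hxR⟩
      exact ⟨⟨⟨x, fixingSubgroup_le hkF hx⟩, hxR⟩, hx, rfl⟩
  refine exists_congr fun C => ?_
  rw [← rankC_field, ← hmap]
  refine rankC_iff f hf.injective hf p (fam c p) _ ?_ C
  exact isOpen_subgroupOf (isOpen_subgroupOf F.fixingSubgroup_isOpen)

end Pool.Agent.K1H37.MU
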